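import Mathlib

/-! Clipping Gaussian variables. -/

set_option autoImplicit false

open scoped BigOperators
open MeasureTheory ProbabilityTheory

namespace Pool.Agent.X133.GA

/-- the standard Gaussian law -/
noncomputable abbrev gam : Measure ℝ := gaussianReal 0 1

theorem tail_one (B : ℝ) : gam.real {s | B ≤ s} ≤ 2 * Real.exp (-B) := by
  have h1 := measure_ge_le_exp_mul_mgf (μ := gam) (X := fun s => s) (t := 1) B zero_le_one
    (integrable_exp_mul_gaussianReal 1)
  rw [show (fun s : ℝ => s) = id from rfl, mgf_id_gaussianReal] at h1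
  simp only [zero_add, one_pow, mul_one, NNReal.coe_one, neg_mul, one_mul] at h1
  have h2 : Real.exp (1 / 2) ≤ 2 := by
    have h3 : Real.exp (1 / 2) ^ 2 = Real.exp 1 := by
      rw [← Real.exp_nat_mul]
      norm_num
    have h4 := Real.exp_one_lt_three
    nlinarith [Real.exp_pos (1 / 2)]
  calc gam.real {s | B ≤ s} ≤ Real.exp (-B) * Real.exp (1 / 2) := h1
    _ ≤ Real.exp (-B) * 2 := by gcongr
    _ = _ := by ring

theorem gam_neg : gam.map (fun s => -s) = gam := by
  have := gaussianReal_map_neg (μ := 0) (v := 1)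
  rwa [neg_zero] at this

theorem tail (B : ℝ) : gam.real {s | B < |s|} ≤ 4 * Real.exp (-B) := by
  have h1 := tail_one B
  have h2 : gam.real {s | B ≤ -s} ≤ 2 * Real.exp (-B) := by
    have h3 : gam.real {s | B ≤ -s} = (gam.map (fun s => -s)).real {s | B ≤ s} := by
      have hm : MeasurableSet {s : ℝ | B ≤ s} := measurableSet_Ici
      have hn : Measurable fun s : ℝ => -s := measurable_neg
      rw [map_measureReal_apply hn hm]
      rfl
    rw [h3, gam_neg]
    exact h1
  have hsub : {s : ℝ | B < |s|} ⊆ {s | B ≤ s} ∪ {s | B ≤ -s} := by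
    intro s hs
    rcases lt_abs.1 (show B < |s| from hs) with h | h
    · exact Or.inl h.le
    · exact Or.inr h.le
  calc gam.real {s | B < |s|} ≤ gam.real ({s | B ≤ s} ∪ {s | B ≤ -s}) :=
        measureReal_mono hsub (measure_ne_top _ _)
    _ ≤ _ := measureReal_union_le _ _
    _ ≤ _ := by linarith

/-- clipping and rescaling -/
noncomputable def cl (B s : ℝ) : ℝ := max (-B) (min B s) / B

theorem cl_meas (B : ℝ) : Measurable (cl B) := by
  unfold cl
  fun_prop

theorem cl_abs {B : ℝ} (hB : 0 < B) (s : ℝ) : |cl B s| ≤ 1 := by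
  unfold cl
  rw [abs_div, abs_of_pos hB, div_le_one hB, abs_le]
  exact ⟨le_max_left _ _, max_le (by linarith) (min_le_left _ _)⟩

theorem cl_eq {B : ℝ} (hB : 0 < B) {s : ℝ} (hs : |s| ≤ B) : B * cl B s = s := by
  unfold cl
  obtain ⟨h1, h2⟩ := abs_le.1 hs
  rw [min_eq_right h2, max_eq_right h1]
  field_simp

theorem cl_odd {B : ℝ} (hB : 0 < B) (s : ℝ) : cl B (-s) = -cl B s := by
  unfold cl
  rw [← neg_div]
  congr 1
  rcases le_total s (-B) with h | h
  · rw [min_eq_left (show B ≤ -s by linarith), min_eq_right (show s ≤ B by linarith),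
      max_eq_right (show -B ≤ B by linarith), max_eq_left h, neg_neg]
  · rcases le_total s B with h' | h'
    · rw [min_eq_right (show -s ≤ B by linarith), min_eq_right h',
        max_eq_right (show -B ≤ -s by linarith), max_eq_right h]
    · rw [min_eq_right (show -s ≤ B by linarith), min_eq_left h',
        max_eq_left (show -s ≤ -B by linarith), max_eq_right (show -B ≤ B by linarith)]

/-- the law of the clipped variables -/
noncomputable def nu (B : ℝ) : Measure ℝ := gam.map (cl B)

instance (B : ℝ) : IsProbabilityMeasure (nu B) :=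
  Measure.isProbabilityMeasure_map (cl_meas B).aemeasurable

theorem nu_bd {B : ℝ} (hB : 0 < B) : ∀ᵐ s ∂(nu B), |s| ≤ 1 := by
  unfold nu
  rw [ae_map_iff (cl_meas B).aemeasurable (measurableSet_le (by fun_prop) (by fun_prop))]
  exact Filter.Eventually.of_forall fun s => cl_abs hB s

theorem nu_mean {B : ℝ} (hB : 0 < B) : ∫ s, s ∂(nu B) = 0 := by
  unfold nu
  rw [integral_map (cl_meas B).aemeasurable (by fun_prop)]
  have h1 : ∫ s, cl B s ∂gam = ∫ s, cl B (-s) ∂gam := by
    have h2 := integral_map (μ := gam) (φ := fun s : ℝ => -s) measurable_neg.aemeasurable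
      (f := cl B) (cl_meas B).aestronglyMeasurable
    rw [gam_neg] at h2
    exact h2
  simp only [cl_odd hB] at h1
  rw [integral_neg] at h1
  linarith

/-- the law of the clipped field -/
theorem law_cl (d : ℕ) (B : ℝ) :
    (Measure.infinitePi fun _ : Fin d → ℤ => gam).map (fun ω x => cl B (ω x)) =
      Measure.infinitePi fun _ : Fin d → ℤ => nu B :=
  Measure.infinitePi_map_pi (μ := fun _ : Fin d → ℤ => gam)
    (f := fun _ (s : ℝ) => cl B s) (fun _ => cl_meas B)

/-- large values in a box -/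
def Big (d : ℕ) (B R : ℝ) : Set ((Fin d → ℤ) → ℝ) :=
  {ω | ∃ x : Fin d → ℤ, ‖x‖ < R ∧ B < |ω x|}

theorem Big_meas (d : ℕ) (B R : ℝ) : MeasurableSet (Big d B R) := by
  have h1 : Big d B R = ⋃ x : Fin d → ℤ, {ω | ‖x‖ < R ∧ B < |ω x|} := by
    ext ω
    simp [Big]
  rw [h1]
  refine MeasurableSet.iUnion fun x => ?_
  by_cases h : ‖x‖ < R
  · simp only [h, true_and]
    exact measurableSet_lt measurable_const (measurable_pi_apply x).abs
  · simp [h]

theorem Big_prob (d : ℕ) (B R p : ℝ) (hR : 1 ≤ R) (hp : gam.real {s | B < |s|} ≤ p) :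
    (Measure.infinitePi fun _ : Fin d → ℤ => gam).real (Big d B R) ≤ (3 * R) ^ d * p := by
  have hp0 : 0 ≤ p := measureReal_nonneg.trans hp
  obtain ⟨n, hn⟩ : ∃ n : ℕ, n = ⌊R⌋₊ := ⟨_, rfl⟩
  have hnR : (n : ℝ) ≤ R := by rw [hn]; exact Nat.floor_le (by linarith)
  obtain ⟨F, hF⟩ : ∃ F : Finset (Fin d → ℤ), F = Finset.Icc (fun _ => -(n : ℤ)) (fun _ => (n : ℤ)) :=
    ⟨_, rfl⟩
  have hcard : (F.card : ℝ) ≤ (3 * R) ^ d := by
    rw [hF, Pi.card_Icc]
    simp only [Int.card_Icc, Finset.prod_const, Finset.card_univ, Fintype.card_fin]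
    have h1 : ((n : ℤ) + 1 - -(n : ℤ)).toNat = 2 * n + 1 := by omega
    rw [h1]
    push_cast
    gcongr
    linarith
  have hsub : Big d B R ⊆ ⋃ x ∈ F, {ω : (Fin d → ℤ) → ℝ | B < |ω x|} := by
    rintro ω ⟨x, hx, hB⟩
    refine Set.mem_iUnion₂.2 ⟨x, ?_, hB⟩
    rw [hF, Finset.mem_Icc]
    have h2 : ∀ i, |x i| ≤ (n : ℤ) := by
      intro i
      have h3 : ‖x i‖ ≤ ‖x‖ := norm_le_pi_norm x i
      rw [Int.norm_eq_abs] at h3
      have h4 : ((|x i| : ℤ) : ℝ) < R := by
        push_cast
        linarith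
      have h5 : (|x i|).toNat ≤ n := by
        rw [hn]
        apply Nat.le_floor
        have h6 : (((|x i|).toNat : ℤ) : ℝ) = ((|x i| : ℤ) : ℝ) := by
          rw [Int.toNat_of_nonneg (abs_nonneg _)]
        have h7 : (((|x i|).toNat : ℕ) : ℝ) = ((|x i| : ℤ) : ℝ) := by
          rw [← h6]
          norm_cast
        rw [h7]
        exact h4.le
      have h6 := Int.toNat_of_nonneg (abs_nonneg (x i))
      omega
    exact ⟨fun i => (abs_le.1 (h2 i)).1, fun i => (abs_le.1 (h2 i)).2⟩
  have hone : ∀ x : Fin d → ℤ, (Measure.infinitePi fun _ : Fin d → ℤ => gam).real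
      {ω : (Fin d → ℤ) → ℝ | B < |ω x|} ≤ p := by
    intro x
    have h1 := Measure.infinitePi_map_eval (μ := fun _ : Fin d → ℤ => gam) x
    have hm : MeasurableSet {s : ℝ | B < |s|} := measurableSet_lt measurable_const measurable_abs
    have hev : Measurable fun ω : (Fin d → ℤ) → ℝ => ω x := measurable_pi_apply x
    have h2 := map_measureReal_apply (μ := Measure.infinitePi fun _ : Fin d → ℤ => gam) hev hm
    have h3 : (Measure.infinitePi fun _ : Fin d → ℤ => gam).real
        {ω : (Fin d → ℤ) → ℝ | B < |ω x|} = gam.real {s | B < |s|} := by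
      rw [h1] at h2
      exact h2.symm
    rw [h3]
    exact hp
  calc _ ≤ (Measure.infinitePi fun _ : Fin d → ℤ => gam).real
        (⋃ x ∈ F, {ω : (Fin d → ℤ) → ℝ | B < |ω x|}) :=
        measureReal_mono hsub (measure_ne_top _ _)
    _ ≤ ∑ x ∈ F, (Measure.infinitePi fun _ : Fin d → ℤ => gam).real
        {ω : (Fin d → ℤ) → ℝ | B < |ω x|} := measureReal_biUnion_finset_le _ _
    _ ≤ ∑ _x ∈ F, p := Finset.sum_le_sum fun x _ => hone x
    _ = F.card * p := by rw [Finset.sum_const, nsmul_eq_mul]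
    _ ≤ _ := by gcongr

end Pool.Agent.X133.GA
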