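import Pool.Agent.X133.GA.Core
import Pool.Agent.X133.GA.Gauss

/-! Gaussian potentials: the good event. -/

set_option autoImplicit false

open scoped BigOperators
open MeasureTheory Filter

namespace Pool.Agent.X133.GA

open Pool.Agent.W788.BK
open Pool.Agent.TH794.LL2
open Pool.Agent.W788.BK.Num

theorem ev_lin (A k c : ℝ) (hc : 0 < c) : ∀ᶠ Y : ℝ in atTop, A + k * Y ≤ Real.exp (c * Y) := by
  filter_upwards [eventually_ge_atTop 1, eventually_ge_atTop (4 * (|A| + |k|) / c ^ 2)] with Y h1 h2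
  have h3 : 1 + c * Y / 2 ≤ Real.exp (c * Y / 2) := by
    have := Real.add_one_le_exp (c * Y / 2)
    linarith
  have h4 : Real.exp (c * Y) = Real.exp (c * Y / 2) ^ 2 := by
    rw [← Real.exp_nat_mul]
    congr 1
    push_cast
    ring
  have hcY : 0 ≤ c * Y / 2 := by positivity
  rw [h4]
  have h5 : (c * Y / 2) ^ 2 ≤ Real.exp (c * Y / 2) ^ 2 := pow_le_pow_left₀ hcY (by linarith) 2
  rw [div_le_iff₀ (by positivity)] at h2
  have h6 : A ≤ |A| * Y := (le_abs_self A).trans (le_mul_of_one_le_right (abs_nonneg _) h1)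
  have h7 : k * Y ≤ |k| * Y := mul_le_mul_of_nonneg_right (le_abs_self k) (by linarith)
  have h8 : (|A| + |k|) * Y ≤ (c * Y / 2) ^ 2 := by nlinarith
  nlinarith

theorem ev_exp (A k c c' : ℝ) (hc : 0 < c) (hcc : c < c') :
    ∀ᶠ Y : ℝ in atTop, A + k * Real.exp (c * Y) ≤ Real.exp (c' * Y) := by
  filter_upwards [eventually_ge_atTop 0, ev_lin (|A| + |k|) 0 (c' - c) (by linarith)] with Y h1 h2
  rw [zero_mul, add_zero] at h2
  have h3 : 1 ≤ Real.exp (c * Y) := Real.one_le_exp (by positivity)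
  have h4 : Real.exp (c' * Y) = Real.exp ((c' - c) * Y) * Real.exp (c * Y) := by
    rw [← Real.exp_add]
    congr 1
    ring
  rw [h4]
  have h5 : A ≤ |A| * Real.exp (c * Y) :=
    (le_abs_self A).trans (le_mul_of_one_le_right (abs_nonneg _) h3)
  have h6 : k * Real.exp (c * Y) ≤ |k| * Real.exp (c * Y) :=
    mul_le_mul_of_nonneg_right (le_abs_self k) (by linarith)
  have h7 := mul_le_mul_of_nonneg_right h2 (show 0 ≤ Real.exp (c * Y) by positivity)
  linarith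

theorem prob_inter {Ω : Type} [MeasurableSpace Ω] (P : Measure Ω) [IsProbabilityMeasure P]
    (A B C : Set Ω) (p q r : ℝ) (hA : MeasurableSet A) (hB : MeasurableSet B)
    (hC : MeasurableSet C) (h1 : 1 - p ≤ P.real A) (h2 : 1 - q ≤ P.real B)
    (h3 : P.real C ≤ r) : 1 - (p + q + r) ≤ P.real (A ∩ B ∩ Cᶜ) := by
  have e1 : P.real (A ∩ B ∩ Cᶜ)ᶜ = 1 - P.real (A ∩ B ∩ Cᶜ) :=
    probReal_compl_eq_one_sub ((hA.inter hB).inter hC.compl)
  have e2 : (A ∩ B ∩ Cᶜ)ᶜ = (Aᶜ ∪ Bᶜ) ∪ C := by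
    rw [Set.compl_inter, Set.compl_inter, compl_compl]
  have e3 : P.real ((Aᶜ ∪ Bᶜ) ∪ C) ≤ P.real Aᶜ + P.real Bᶜ + P.real C :=
    (measureReal_union_le _ _).trans (by
      have := measureReal_union_le (μ := P) Aᶜ Bᶜ
      linarith)
  rw [e2] at e1
  have e4 : P.real Aᶜ = 1 - P.real A := probReal_compl_eq_one_sub hA
  have e5 : P.real Bᶜ = 1 - P.real B := probReal_compl_eq_one_sub hB
  linarith

/-- **the good event** -/
theorem event (hTH : S_THIRD) (hFL : S_FLUCT) (hIN : S_INV) (hMB : S_MB) (hCO : S_CONC)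
    (hSU : S_SUP) (hSI : S_SITE) (hQB : S_QB) (hLO : S_LOW) (hAD : S_ADM) (hES : S_ES)
    (hO : S_OSC) (d : ℕ) (hd : 3 ≤ d) (ε c : ℝ) (hε1 : ε ≤ 1 / 4) (hc : 0 < c)
    (hcε : 2 * c ≤ ε) (hc2 : c ≤ 1 / 200) :
    ∃ Y0 : ℝ, 1 ≤ Y0 ∧ ∀ Y : ℝ, Y0 ≤ Y → ∃ (Gf : ℝ → ℝ) (G : Set ((Fin d → ℤ) → ℝ)),
      MeasurableSet G ∧
      1 - Real.exp (-Real.exp (c * Y)) ≤ (Measure.infinitePi fun _ : Fin d → ℤ => gam).real G ∧
      (∀ E, |Gf E| ≤ KK d) ∧
      (∀ (σ : ℝ) (ξ : (Fin d → ℤ) → ℝ) (a : Fin d → ℤ) (E : ℝ) (ur ui : (Fin d → ℤ) → ℝ),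
        (∀ x, σ * ξ x = 0) →
        LG d σ ξ a E (Real.exp (-(211 / 100) * ((1 - ε) * Y))) ur ui →
        |ui a - Gf E| ≤ Real.exp (-(11 / 1000) * ((1 - ε) * Y))) ∧
      ∀ ξ ∈ G, SM1 d (Real.exp (-Y)) (Real.exp (Real.exp (c * Y)))
          (Real.exp (-(17 / 8) * ((1 - ε) * Y))) (2 * (192 * (C1 * (17 / 8 * ((1 - ε) * Y))))) ξ ∧
        LLaw d (Real.exp (-Y)) (Real.exp (Real.exp (c * Y)))
          (Real.exp (-(211 / 100) * ((1 - ε) * Y)))
          (Real.exp (-(11 / 1000) * ((1 - ε) * Y)) + Real.exp (-(11 / 1000) * ((1 - ε) * Y)))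
          Gf ξ := by
  have hε0 : 0 < ε := by linarith
  have hd0 : (0 : ℝ) < d := by
    have : 0 < d := by omega
    exact_mod_cast this
  obtain ⟨y1, h1⟩ := engine hTH hFL hIN hMB hCO hSU hSI hQB hLO hAD d hd 1 one_pos
  obtain ⟨y2, h2⟩ := engine2 hES hTH hFL hIN hO hSU hQB hLO hAD d hd 1 one_pos
  obtain ⟨Y1, hY1⟩ := Filter.eventually_atTop.1
    ((eventually_ge_atTop (1 : ℝ)).and
    ((eventually_ge_atTop (2 * y1)).and
    ((eventually_ge_atTop (2 * y2)).and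
    ((ev_exp (Real.log 3) 1 c (1 / 140) hc (by linarith)).and
    ((ev_exp (Real.log 12 + d * Real.log 6) (d + 1) c ε hc (by linarith)).and
    ((ev_lin (Real.log (4 * d)) (17 / 8) c hc).and
    (ev_lin (Real.log (4 * d)) (211 / 50 + 11 / 1000) c hc)))))))
  refine ⟨max Y1 1, le_max_right _ _, fun Y hY => ?_⟩
  obtain ⟨n0, n1, n2, n3, n4, n5, n6⟩ := hY1 Y ((le_max_left _ _).trans hY)
  obtain ⟨y, hy⟩ : ∃ y, y = (1 - ε) * Y := ⟨_, rfl⟩
  have hy34 : 3 / 4 * Y ≤ y := by rw [hy]; nlinarith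
  have hyY : y ≤ Y := by rw [hy]; nlinarith
  have hy1 : y1 ≤ y := by
    by_cases h : 0 ≤ y1
    · linarith
    · push Not at h
      linarith
  have hy2 : y2 ≤ y := by
    by_cases h : 0 ≤ y2
    · linarith
    · push Not at h
      linarith
  rw [← hy]
  obtain ⟨B, hB⟩ : ∃ B, B = Real.exp (ε * Y) := ⟨_, rfl⟩
  have hB0 : 0 < B := by rw [hB]; positivity
  obtain ⟨R, hR⟩ : ∃ R, R = Real.exp (Real.exp (c * Y)) := ⟨_, rfl⟩
  have hR0 : 0 < R := by rw [hR]; positivity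
  have hR1 : 1 ≤ R := by rw [hR]; exact Real.one_le_exp (by positivity)
  have hcy : Real.exp (c * Y) ≤ Real.exp (y / 100) := Real.exp_le_exp.2 (by nlinarith)
  have hRρ : R ≤ Real.exp (Real.exp (y / 100)) := by
    rw [hR]
    exact Real.exp_le_exp.2 hcy
  obtain ⟨G1, hG1, hP1, hL1⟩ := h1 y hy1 (nu B) inferInstance (nu_bd hB0) (nu_mean hB0)
  obtain ⟨Gf, G2, hG2, hP2, hGf, -, hL2, hF⟩ := h2 y hy2 (nu B) inferInstance (nu_bd hB0)
    (nu_mean hB0)
  have hTm : Measurable (fun (ω : (Fin d → ℤ) → ℝ) x => cl B (ω x)) :=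
    measurable_pi_lambda _ fun x => (cl_meas B).comp (measurable_pi_apply x)
  have hpull : ∀ G : Set ((Fin d → ℤ) → ℝ), MeasurableSet G →
      (Measure.infinitePi fun _ : Fin d → ℤ => gam).real
        ((fun (ω : (Fin d → ℤ) → ℝ) x => cl B (ω x)) ⁻¹' G) =
      (Measure.infinitePi fun _ : Fin d → ℤ => nu B).real G := by
    intro G hG
    rw [← law_cl, map_measureReal_apply hTm hG]
  rw [← hpull G1 hG1] at hP1
  rw [← hpull G2 hG2] at hP2
  have hbig := Big_prob d B (2 * R) (4 * Real.exp (-B)) (by linarith) (tail B)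
  -- the probabilities
  have hq1 : Real.exp (-Real.exp (y / 100)) ≤ 1 / 3 * Real.exp (-Real.exp (c * Y)) := by
    have e1 : (1 : ℝ) / 3 = Real.exp (-Real.log 3) := by
      rw [Real.exp_neg, Real.exp_log (by norm_num), one_div]
    rw [e1, ← Real.exp_add]
    apply Real.exp_le_exp.2
    have e2 : Real.exp (1 / 140 * Y) ≤ Real.exp (y / 100) := Real.exp_le_exp.2 (by linarith)
    linarith
  have hq2 : (3 * (2 * R)) ^ d * (4 * Real.exp (-B)) ≤ 1 / 3 * Real.exp (-Real.exp (c * Y)) := by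
    have e1 : (3 * (2 * R)) = Real.exp (Real.log 6 + Real.exp (c * Y)) := by
      rw [Real.exp_add, Real.exp_log (by norm_num), hR]
      ring
    have e2 : (3 * (2 * R)) ^ d = Real.exp (d * (Real.log 6 + Real.exp (c * Y))) := by
      rw [e1, ← Real.exp_nat_mul]
    have e3 : Real.log 12 = Real.log 3 + Real.log 4 := by
      rw [← Real.log_mul (by norm_num) (by norm_num)]
      norm_num
    have e4 : (4 : ℝ) = Real.exp (Real.log 4) := by rw [Real.exp_log (by norm_num)]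
    have e5 : (1 : ℝ) / 3 = Real.exp (-Real.log 3) := by
      rw [Real.exp_neg, Real.exp_log (by norm_num), one_div]
    rw [e2, e5]
    conv_lhs => rw [e4]
    rw [← Real.exp_add, ← Real.exp_add, ← Real.exp_add]
    apply Real.exp_le_exp.2
    rw [hB]
    linarith
  refine ⟨Gf, ((fun (ω : (Fin d → ℤ) → ℝ) x => cl B (ω x)) ⁻¹' G1) ∩
    ((fun (ω : (Fin d → ℤ) → ℝ) x => cl B (ω x)) ⁻¹' G2) ∩ (Big d B (2 * R))ᶜ,
    ((hTm hG1).inter (hTm hG2)).inter (Big_meas d B (2 * R)).compl, ?_, hGf, hF, ?_⟩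
  · have h3 := prob_inter (Measure.infinitePi fun _ : Fin d → ℤ => gam) _ _ _ _ _ _ (hTm hG1)
      (hTm hG2) (Big_meas d B (2 * R)) hP1 hP2 hbig
    linarith
  · rintro ξ ⟨⟨hξ1, hξ2⟩, hξ3⟩
    have hV : ∀ x : Fin d → ℤ, ‖x‖ < 2 * R →
        Real.exp (-Y) * ξ x = Real.exp (-1 * y) * (fun x => cl B (ξ x)) x := by
      intro x hx
      have hle : |ξ x| ≤ B := by
        by_contra hcon
        exact hξ3 ⟨x, hx, not_le.1 hcon⟩
      have h4 := cl_eq hB0 hle
      have h5 : Real.exp (-1 * y) = Real.exp (-Y) * B := by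
        rw [hB, ← Real.exp_add, hy]
        congr 1
        ring
      rw [h5]
      simp only
      rw [mul_assoc, h4]
    have hbd : ∀ x : Fin d → ℤ, |Real.exp (-1 * y) * (fun x => cl B (ξ x)) x| ≤
        Real.exp (-1 * y) := by
      intro x
      rw [abs_mul, abs_of_pos (Real.exp_pos _)]
      exact mul_le_of_le_one_right (Real.exp_pos _).le (cl_abs hB0 (ξ x))
    have s1 : SM1 d (Real.exp (-1 * y)) R (Real.exp (-(17 / 8) * y))
        (192 * (C1 * (17 / 8 * y))) (fun x => cl B (ξ x)) := by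
      intro E u f hu hf heq a ha
      exact hL1 _ hξ1 E u f hu hf heq a (ha.trans hRρ)
    have s2 : LLaw d (Real.exp (-1 * y)) R (Real.exp (-(211 / 100) * y))
        (Real.exp (-(11 / 1000) * y)) Gf (fun x => cl B (ξ x)) := by
      intro a ha E ur ui hLG
      exact hL2 _ hξ2 a (ha.trans hRρ) E ur ui hLG
    have hC1 := C1_ge
    have hy0 : 0 ≤ y := by linarith
    have e4d : (4 : ℝ) * d = Real.exp (Real.log (4 * d)) := by
      rw [Real.exp_log (by positivity)]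
    rw [← hR]
    refine ⟨SM1_transfer _ _ R _ _ R ξ _ hR0 le_rfl (Real.exp_pos _) (by positivity) hV ?_ s1,
      LLaw_transfer _ _ R _ _ _ R _ Gf ξ _ hR0 le_rfl (Real.exp_pos _) hV hbd ?_ s2⟩
    · rw [e4d, hR, ← Real.exp_add]
      apply Real.exp_le_exp.2
      linarith
    · rw [div_le_iff₀ (by positivity), e4d, hR, ← Real.exp_nat_mul, ← Real.exp_add,
        ← Real.exp_add]
      apply Real.exp_le_exp.2
      push_cast
      linarith

end Pool.Agent.X133.GA
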