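import Pool.Agent.X133.GA.Cut
import Pool.Agent.W788.BK.Flat1
import Pool.Agent.TH794.LL2.Fin2
import Pool.Agent.TH794.QE.FinA

/-! From bounded to unbounded potentials. -/

set_option autoImplicit false

open scoped BigOperators
open MeasureTheory

namespace Pool.Agent.X133.GA

open Pool.Agent.W788.BK
open Pool.Agent.TH794.LL2
open Pool.Agent.W788.BK.Num

variable {d : ℕ}

theorem S_real (u : (Fin d → ℤ) → ℝ) (x : Fin d → ℤ) :
    S (fun y => (u y : ℂ)) x = ((∑ i, (u (x + Pi.single i 1) + u (x - Pi.single i 1)) : ℝ) : ℂ) := by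
  unfold S
  push_cast
  rfl

/-- **local smoothing** for potentials which agree on a large ball -/
theorem SM1_transfer (σ σ' ρ t g R : ℝ) (ξ ζ : (Fin d → ℤ) → ℝ) (hR : 0 < R) (hρ : ρ ≤ R)
    (ht : 0 < t) (hg : 0 ≤ g) (hV : ∀ x : Fin d → ℤ, ‖x‖ < 2 * R → σ * ξ x = σ' * ζ x)
    (hRt : 4 * d ≤ t * R) (h : SM1 d σ' ρ t g ζ) : SM1 d σ ρ t (2 * g) ξ := by
  intro E u f hu hf heq a ha
  have hcu : Summable fun x => ‖((u x : ℝ) : ℂ)‖ ^ 2 := by
    simpa [Complex.norm_real, sq_abs] using hu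
  have hcf : Summable fun x => ‖((f x : ℝ) : ℂ)‖ ^ 2 := by
    simpa [Complex.norm_real, sq_abs] using hf
  have heqc : ∀ x, S (fun y => (u y : ℂ)) x + ((σ * ξ x : ℝ) : ℂ) * (u x : ℂ) - (E : ℂ) * (u x : ℂ) =
      ((f x : ℝ) : ℂ) := by
    intro x
    rw [S_real]
    have := heq x
    have h2 : f x = ∑ i, (u (x + Pi.single i 1) + u (x - Pi.single i 1)) + σ * ξ x * u x -
        E * u x := by linarith
    rw [h2]
    push_cast
    ring
  have hcut := cut_eq R (fun x => σ * ξ x) (fun x => σ' * ζ x) hR hV (E : ℂ) (fun x => (u x : ℂ))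
    (fun x => (f x : ℂ)) heqc
  obtain ⟨k, hk⟩ : ∃ k : (Fin d → ℤ) → ℝ, k = fun x => (com R (fun y => (u y : ℂ)) x).re :=
    ⟨_, rfl⟩
  have hsc := summ_com hR (fun x => (u x : ℂ)) hcu
  have hkle : ∀ x, k x ^ 2 ≤ ‖com R (fun y => (u y : ℂ)) x‖ ^ 2 := by
    intro x
    rw [hk, ← sq_abs]
    exact pow_le_pow_left₀ (abs_nonneg _) (Complex.abs_re_le_norm _) 2
  have hks : Summable fun x => k x ^ 2 :=
    Summable.of_nonneg_of_le (fun x => sq_nonneg _) hkle hsc
  have hksum : ∑' x, k x ^ 2 ≤ (2 * d / R) ^ 2 * ∑' x, u x ^ 2 := by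
    refine (hks.tsum_le_tsum hkle hsc).trans ((sum_com hR _ hcu).trans (le_of_eq ?_))
    congr 2
    funext x
    rw [Complex.norm_real, Real.norm_eq_abs, sq_abs]
  have hvle : ∀ (w : (Fin d → ℤ) → ℝ) x, (chi R x * w x) ^ 2 ≤ w x ^ 2 := by
    intro w x
    rw [mul_pow]
    have h1 : chi R x ^ 2 ≤ 1 := pow_le_one₀ (chi_nonneg R x) (chi_le_one R x)
    exact mul_le_of_le_one_left (sq_nonneg _) h1
  have hvs : ∀ w : (Fin d → ℤ) → ℝ, (Summable fun x => w x ^ 2) →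
      Summable fun x => (chi R x * w x) ^ 2 := fun w hw =>
    Summable.of_nonneg_of_le (fun x => sq_nonneg _) (hvle w) hw
  have hfle : ∀ x, (chi R x * f x + k x) ^ 2 ≤ 2 * (f x ^ 2) + 2 * k x ^ 2 := by
    intro x
    have := hvle f x
    nlinarith [sq_nonneg (chi R x * f x - k x)]
  have hfs : Summable fun x => (chi R x * f x + k x) ^ 2 :=
    Summable.of_nonneg_of_le (fun x => sq_nonneg _) hfle ((hf.mul_left 2).add (hks.mul_left 2))
  have hfsum : ∑' x, (chi R x * f x + k x) ^ 2 ≤ 2 * ∑' x, f x ^ 2 + 2 * ∑' x, k x ^ 2 := by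
    rw [← tsum_mul_left, ← tsum_mul_left, ← (hf.mul_left 2).tsum_add (hks.mul_left 2)]
    exact hfs.tsum_le_tsum hfle ((hf.mul_left 2).add (hks.mul_left 2))
  have hvsum : ∑' x, (chi R x * u x) ^ 2 ≤ ∑' x, u x ^ 2 := (hvs u hu).tsum_le_tsum (hvle u) hu
  have h1 := h E (fun x => chi R x * u x) (fun x => chi R x * f x + k x) (hvs u hu) hfs
    (fun x => by
      have h2 := hcut x
      have e0 : (fun y => (chi R y : ℂ) * (u y : ℂ)) = fun y => ((chi R y * u y : ℝ) : ℂ) := by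
        funext y
        push_cast
        rfl
      rw [e0, S_real] at h2
      have h3 := congrArg Complex.re h2
      simp only [Complex.add_re, Complex.sub_re, ← Complex.ofReal_mul, Complex.ofReal_re] at h3
      rw [hk]
      simp only
      linarith) a ha
  have ha1 : chi R a = 1 := chi_one hR a (ha.trans hρ)
  simp only [ha1, one_mul] at h1
  obtain ⟨U, hU⟩ : ∃ U, U = ∑' x, u x ^ 2 := ⟨_, rfl⟩
  obtain ⟨F, hF⟩ : ∃ F, F = ∑' x, f x ^ 2 := ⟨_, rfl⟩
  rw [← hU] at hksum hvsum ⊢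
  rw [← hF] at hfsum ⊢
  have hU0 : 0 ≤ U := by rw [hU]; exact tsum_nonneg fun x => sq_nonneg _
  have hF0 : 0 ≤ F := by rw [hF]; exact tsum_nonneg fun x => sq_nonneg _
  have hk1 : 2 * t⁻¹ * (2 * ((2 * d / R) ^ 2 * U)) ≤ 5 * t * U := by
    have h2 : (2 * d / R) ^ 2 ≤ t ^ 2 / 4 := by
      rw [div_pow, div_le_div_iff₀ (by positivity) (by norm_num)]
      have h3 : (4 * (d : ℝ)) ^ 2 ≤ (t * R) ^ 2 := pow_le_pow_left₀ (by positivity) hRt 2
      nlinarith
    calc 2 * t⁻¹ * (2 * ((2 * d / R) ^ 2 * U)) ≤ 2 * t⁻¹ * (2 * (t ^ 2 / 4 * U)) := by gcongr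
      _ = t * U := by field_simp; ring
      _ ≤ 5 * t * U := by nlinarith [mul_nonneg ht.le hU0]
  calc u a ^ 2 ≤ g * (5 * t * ∑' x, (chi R x * u x) ^ 2 +
        2 * t⁻¹ * ∑' x, (chi R x * f x + k x) ^ 2) := h1
    _ ≤ g * (5 * t * U + 2 * t⁻¹ * (2 * F + 2 * ((2 * d / R) ^ 2 * U))) := by
        gcongr
        linarith
    _ = g * (5 * t * U + 2 * t⁻¹ * (2 * ((2 * d / R) ^ 2 * U)) + 4 * t⁻¹ * F) := by ring
    _ ≤ g * (5 * t * U + 5 * t * U + 4 * t⁻¹ * F) := by gcongr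
    _ = 2 * g * (5 * t * U + 2 * t⁻¹ * F) := by ring

/-- the complex form of a Green function -/
theorem LG_complex {σ : ℝ} {ξ : (Fin d → ℤ) → ℝ} {a : Fin d → ℤ} {E t : ℝ}
    {ur ui : (Fin d → ℤ) → ℝ} (h : LG d σ ξ a E t ur ui) :
    (Summable fun x => ‖((ur x : ℂ) + (ui x : ℂ) * Complex.I)‖ ^ 2) ∧
    ∀ x, S (fun y => (ur y : ℂ) + (ui y : ℂ) * Complex.I) x +
      ((σ * ξ x : ℝ) : ℂ) * ((ur x : ℂ) + (ui x : ℂ) * Complex.I) -
      ((E : ℂ) + (t : ℂ) * Complex.I) * ((ur x : ℂ) + (ui x : ℂ) * Complex.I) =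
      if x = a then 1 else 0 := by
  constructor
  · have h1 : ∀ x, ‖((ur x : ℂ) + (ui x : ℂ) * Complex.I)‖ ^ 2 = ur x ^ 2 + ui x ^ 2 := by
      intro x
      rw [← Complex.normSq_eq_norm_sq, Complex.normSq_add_mul_I]
    simp only [h1]
    exact h.sr.add h.si
  · intro x
    have hS : S (fun y => (ur y : ℂ) + (ui y : ℂ) * Complex.I) x =
        S (fun y => (ur y : ℂ)) x + S (fun y => (ui y : ℂ)) x * Complex.I := by
      unfold S
      rw [Finset.sum_mul, ← Finset.sum_add_distrib]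
      exact Finset.sum_congr rfl fun i _ => by ring
    rw [hS, S_real, S_real]
    have h1 := h.er x
    have h2 := h.ei x
    have h3 : ∑ i, (ur (x + Pi.single i 1) + ur (x - Pi.single i 1)) =
        E * ur x + ((if x = a then 1 else 0) - t * ui x) - σ * ξ x * ur x := by linarith
    have h4 : ∑ i, (ui (x + Pi.single i 1) + ui (x - Pi.single i 1)) =
        E * ui x + t * ur x - σ * ξ x * ui x := by linarith
    rw [h3, h4]
    push_cast
    have hI : Complex.I * Complex.I = -1 := Complex.I_mul_I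
    by_cases hx : x = a
    · rw [if_pos hx, if_pos hx]
      push_cast
      linear_combination (-(t : ℂ) * (ui x : ℂ)) * hI
    · rw [if_neg hx, if_neg hx]
      push_cast
      linear_combination (-(t : ℂ) * (ui x : ℂ)) * hI

/-- Green functions exist for bounded potentials -/
theorem LG_exists (σ : ℝ) (ξ : (Fin d → ℤ) → ℝ) (B : ℝ) (hB : ∀ x, |σ * ξ x| ≤ B) (a : Fin d → ℤ)
    (E t : ℝ) (ht : 0 < t) : ∃ ur ui : (Fin d → ℤ) → ℝ, LG d σ ξ a E t ur ui := by
  obtain ⟨u, hu⟩ := Pool.Agent.TH794.QE.rs_exists (fun x => -(σ * ξ x)) B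
    (fun x => by rw [abs_neg]; exact hB x) a (-E) t ht
  have hn : ∀ x, ‖u x‖ ^ 2 = (u x).re ^ 2 + (u x).im ^ 2 := by
    intro x
    rw [← Complex.normSq_eq_norm_sq, Complex.normSq_apply]
    ring
  refine ⟨fun x => -(u x).re, fun x => (u x).im, ⟨?_, ?_, ?_, ?_⟩⟩
  · refine Summable.of_nonneg_of_le (fun x => sq_nonneg _) (fun x => ?_) hu.sq
    rw [hn x]
    nlinarith [sq_nonneg (u x).im]
  · refine Summable.of_nonneg_of_le (fun x => sq_nonneg _) (fun x => ?_) hu.sq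
    rw [hn x]
    nlinarith [sq_nonneg (u x).re]
  · intro x
    have h3 := congrArg Complex.re (hu.eq x)
    have h4 : ((if x = a then 1 else 0 : ℂ)).re = if x = a then 1 else 0 := by
      by_cases hx : x = a
      · rw [if_pos hx, if_pos hx, Complex.one_re]
      · rw [if_neg hx, if_neg hx, Complex.zero_re]
    rw [h4] at h3
    have h5 : ∑ i : Fin d, (-(u (x + Pi.single i 1)).re + -(u (x - Pi.single i 1)).re) =
        -∑ i : Fin d, ((u (x + Pi.single i 1)).re + (u (x - Pi.single i 1)).re) := by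
      rw [← Finset.sum_neg_distrib]
      exact Finset.sum_congr rfl fun i _ => by ring
    rw [h5]
    simp [Pool.Agent.W788.LD.Spec.S] at h3
    linarith
  · intro x
    have h3 := congrArg Complex.im (hu.eq x)
    have h4 : ((if x = a then 1 else 0 : ℂ)).im = 0 := by
      by_cases hx : x = a
      · rw [if_pos hx, Complex.one_im]
      · rw [if_neg hx, Complex.zero_im]
    rw [h4] at h3
    simp [Pool.Agent.W788.LD.Spec.S] at h3
    linarith

/-- **the local law** for potentials which agree on a large ball -/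
theorem LLaw_transfer (σ σ' ρ t e3 e4 R B : ℝ) (Gf : ℝ → ℝ) (ξ ζ : (Fin d → ℤ) → ℝ) (hR : 0 < R)
    (hρ : ρ ≤ R) (ht : 0 < t) (hV : ∀ x : Fin d → ℤ, ‖x‖ < 2 * R → σ * ξ x = σ' * ζ x)
    (hB : ∀ x, |σ' * ζ x| ≤ B) (he : 4 * d / (R * t ^ 2) ≤ e4)
    (h : LLaw d σ' ρ t e3 Gf ζ) : LLaw d σ ρ t (e3 + e4) Gf ξ := by
  intro a ha E ur ui hL
  obtain ⟨vr, vi, hL'⟩ := LG_exists σ' ζ B hB a E t ht
  have h1 := h a ha E vr vi hL'
  obtain ⟨s1, q1⟩ := LG_complex hL
  obtain ⟨s2, q2⟩ := LG_complex hL'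
  have hz : ((E : ℂ) + (t : ℂ) * Complex.I).im = t := by simp
  have hsg : Summable fun x : Fin d → ℤ => ‖(if x = a then 1 else 0 : ℂ)‖ ^ 2 := by
    refine summable_of_ne_finset_zero (s := {a}) fun x hx => ?_
    rw [Finset.mem_singleton] at hx
    rw [if_neg hx]
    simp
  have hsum : ∑' x : Fin d → ℤ, ‖(if x = a then 1 else 0 : ℂ)‖ ^ 2 = 1 := by
    rw [tsum_eq_single a]
    · simp
    · intro x hx
      rw [if_neg hx]
      simp
  have h2 := transfer R (fun x => σ * ξ x) (fun x => σ' * ζ x) hR hV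
    ((E : ℂ) + (t : ℂ) * Complex.I) (by rw [hz]; exact ht) _ _ _ s1 s2 hsg
    (fun x hx => by
      rw [if_neg]
      rintro rfl
      linarith) q1 q2
  rw [hsum, mul_one, hz] at h2
  have h3 : Summable fun x => ‖((ur x : ℂ) + (ui x : ℂ) * Complex.I) -
      ((vr x : ℂ) + (vi x : ℂ) * Complex.I)‖ ^ 2 := by
    have := summ_add _ (fun x => -((vr x : ℂ) + (vi x : ℂ) * Complex.I)) s1 (by
      simpa only [norm_neg] using s2)
    simpa only [sub_eq_add_neg] using this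
  have h4 : ‖((ur a : ℂ) + (ui a : ℂ) * Complex.I) - ((vr a : ℂ) + (vi a : ℂ) * Complex.I)‖ ^ 2 ≤
      (4 * d / (R * t ^ 2)) ^ 2 :=
    (h3.le_tsum a fun x _ => by positivity).trans h2
  have h5 : ‖((ur a : ℂ) + (ui a : ℂ) * Complex.I) - ((vr a : ℂ) + (vi a : ℂ) * Complex.I)‖ ≤
      4 * d / (R * t ^ 2) := by
    have h6 : 0 ≤ 4 * d / (R * t ^ 2) := by positivity
    exact le_of_sq_le_sq h4 h6
  have h6 : |ui a - vi a| ≤ 4 * d / (R * t ^ 2) := by
    refine le_trans ?_ h5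
    have h7 := Complex.abs_im_le_norm (((ur a : ℂ) + (ui a : ℂ) * Complex.I) -
      ((vr a : ℂ) + (vi a : ℂ) * Complex.I))
    simpa using h7
  have h7 := abs_sub_le (ui a) (vi a) (Gf E)
  linarith

end Pool.Agent.X133.GA
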