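import Mathlib

/-! Cutting off solutions of `(S + V - z) u = g` on `ℤ^d`; the potential may be unbounded. -/

set_option autoImplicit false

open scoped BigOperators

namespace Pool.Agent.X133.GA

variable {d : ℕ}

/-- the sum over the neighbours -/
noncomputable def S (u : (Fin d → ℤ) → ℂ) (x : Fin d → ℤ) : ℂ :=
  ∑ i : Fin d, (u (x + Pi.single i 1) + u (x - Pi.single i 1))

theorem summ_mul (u v : (Fin d → ℤ) → ℂ) (hu : Summable fun x => ‖u x‖ ^ 2)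
    (hv : Summable fun x => ‖v x‖ ^ 2) : Summable fun x => (starRingEnd ℂ) (u x) * v x := by
  refine Summable.of_norm_bounded (g := fun x => ‖u x‖ ^ 2 + ‖v x‖ ^ 2) (hu.add hv) fun x => ?_
  rw [norm_mul, Complex.norm_conj]
  nlinarith [sq_nonneg (‖u x‖ + ‖v x‖), sq_nonneg (‖u x‖ - ‖v x‖)]

theorem summ_shift (u : (Fin d → ℤ) → ℂ) (e : Fin d → ℤ) (hu : Summable fun x => ‖u x‖ ^ 2) :
    Summable fun x => ‖u (x + e)‖ ^ 2 := by
  have h := (Equiv.addRight e).summable_iff (f := fun x => ‖u x‖ ^ 2)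
  exact h.2 hu

theorem summ_shift' (u : (Fin d → ℤ) → ℂ) (e : Fin d → ℤ) (hu : Summable fun x => ‖u x‖ ^ 2) :
    Summable fun x => ‖u (x - e)‖ ^ 2 := by
  have := summ_shift u (-e) hu
  simpa [sub_eq_add_neg] using this

theorem shiftsum {M : Type*} [AddCommMonoid M] [TopologicalSpace M] (F : (Fin d → ℤ) → M)
    (e : Fin d → ℤ) : ∑' x, F (x + e) = ∑' x, F x :=
  (Equiv.addRight e).tsum_eq (f := F)

theorem shiftsum' {M : Type*} [AddCommMonoid M] [TopologicalSpace M] (F : (Fin d → ℤ) → M)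
    (e : Fin d → ℤ) : ∑' x, F (x - e) = ∑' x, F x :=
  (Equiv.subRight e).tsum_eq (f := F)

theorem summ_add (u v : (Fin d → ℤ) → ℂ) (hu : Summable fun x => ‖u x‖ ^ 2)
    (hv : Summable fun x => ‖v x‖ ^ 2) : Summable fun x => ‖u x + v x‖ ^ 2 := by
  refine Summable.of_nonneg_of_le (fun x => by positivity) (fun x => ?_)
    ((hu.mul_left 2).add (hv.mul_left 2))
  have h1 := norm_add_le (u x) (v x)
  have h2 := norm_nonneg (u x + v x)
  nlinarith [sq_nonneg (‖u x‖ - ‖v x‖)]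

theorem sum_add_le (u v : (Fin d → ℤ) → ℂ) (hu : Summable fun x => ‖u x‖ ^ 2)
    (hv : Summable fun x => ‖v x‖ ^ 2) :
    ∑' x, ‖u x + v x‖ ^ 2 ≤ 2 * ∑' x, ‖u x‖ ^ 2 + 2 * ∑' x, ‖v x‖ ^ 2 := by
  rw [← tsum_mul_left, ← tsum_mul_left, ← (hu.mul_left 2).tsum_add (hv.mul_left 2)]
  refine (summ_add u v hu hv).tsum_le_tsum (fun x => ?_) ((hu.mul_left 2).add (hv.mul_left 2))
  have h1 := norm_add_le (u x) (v x)
  have h2 := norm_nonneg (u x + v x)
  nlinarith [sq_nonneg (‖u x‖ - ‖v x‖)]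

theorem summ_mulr (χ : (Fin d → ℤ) → ℝ) (u : (Fin d → ℤ) → ℂ) (hχ : ∀ x, |χ x| ≤ 1)
    (hu : Summable fun x => ‖u x‖ ^ 2) : Summable fun x => ‖(χ x : ℂ) * u x‖ ^ 2 := by
  refine Summable.of_nonneg_of_le (fun x => by positivity) (fun x => ?_) hu
  rw [norm_mul, Complex.norm_real, Real.norm_eq_abs]
  have h1 : |χ x| * ‖u x‖ ≤ 1 * ‖u x‖ := mul_le_mul_of_nonneg_right (hχ x) (norm_nonneg _)
  rw [one_mul] at h1
  exact pow_le_pow_left₀ (by positivity) h1 2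

/-- the sum over the neighbours is bounded -/
theorem S_le (u : (Fin d → ℤ) → ℂ) (x : Fin d → ℤ) : ‖S u x‖ ^ 2 ≤
    2 * d * ∑ i : Fin d, (‖u (x + Pi.single i 1)‖ ^ 2 + ‖u (x - Pi.single i 1)‖ ^ 2) := by
  have h1 : ‖S u x‖ ≤ ∑ i : Fin d, (‖u (x + Pi.single i 1)‖ + ‖u (x - Pi.single i 1)‖) := by
    unfold S
    exact (norm_sum_le _ _).trans (Finset.sum_le_sum fun i _ => norm_add_le _ _)
  have h2 : (∑ i : Fin d, (‖u (x + Pi.single i 1)‖ + ‖u (x - Pi.single i 1)‖)) ^ 2 ≤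
      d * ∑ i : Fin d, (‖u (x + Pi.single i 1)‖ + ‖u (x - Pi.single i 1)‖) ^ 2 := by
    have := sq_sum_le_card_mul_sum_sq (s := (Finset.univ : Finset (Fin d)))
      (f := fun i => ‖u (x + Pi.single i 1)‖ + ‖u (x - Pi.single i 1)‖)
    rwa [Finset.card_univ, Fintype.card_fin] at this
  calc ‖S u x‖ ^ 2 ≤ (∑ i : Fin d, (‖u (x + Pi.single i 1)‖ + ‖u (x - Pi.single i 1)‖)) ^ 2 :=
        pow_le_pow_left₀ (norm_nonneg _) h1 2
    _ ≤ d * ∑ i : Fin d, (‖u (x + Pi.single i 1)‖ + ‖u (x - Pi.single i 1)‖) ^ 2 := h2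
    _ ≤ d * ∑ i : Fin d, 2 * (‖u (x + Pi.single i 1)‖ ^ 2 + ‖u (x - Pi.single i 1)‖ ^ 2) := by
        gcongr with i
        nlinarith [sq_nonneg (‖u (x + Pi.single i 1)‖ - ‖u (x - Pi.single i 1)‖)]
    _ = _ := by
        rw [← Finset.mul_sum]
        ring

theorem summ_nb (u : (Fin d → ℤ) → ℂ) (hu : Summable fun x => ‖u x‖ ^ 2) :
    Summable fun x : Fin d → ℤ => ∑ i : Fin d,
      (‖u (x + Pi.single i 1)‖ ^ 2 + ‖u (x - Pi.single i 1)‖ ^ 2) :=
  summable_sum fun i _ => (summ_shift u _ hu).add (summ_shift' u _ hu)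

theorem sum_nb (u : (Fin d → ℤ) → ℂ) (hu : Summable fun x => ‖u x‖ ^ 2) :
    ∑' x : Fin d → ℤ, ∑ i : Fin d, (‖u (x + Pi.single i 1)‖ ^ 2 + ‖u (x - Pi.single i 1)‖ ^ 2) =
      2 * d * ∑' x, ‖u x‖ ^ 2 := by
  rw [Summable.tsum_finsetSum fun i _ => (summ_shift u _ hu).add (summ_shift' u _ hu)]
  have h1 : ∀ i : Fin d, ∑' x : Fin d → ℤ,
      (‖u (x + Pi.single i 1)‖ ^ 2 + ‖u (x - Pi.single i 1)‖ ^ 2) =
      2 * ∑' x, ‖u x‖ ^ 2 := by
    intro i
    rw [(summ_shift u _ hu).tsum_add (summ_shift' u _ hu),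
      shiftsum (fun x => ‖u x‖ ^ 2) (Pi.single i 1), shiftsum' (fun x => ‖u x‖ ^ 2)
      (Pi.single i 1)]
    ring
  rw [Finset.sum_congr rfl fun i _ => h1 i, Finset.sum_const, Finset.card_univ, Fintype.card_fin,
    nsmul_eq_mul]
  ring

theorem summ_S (u : (Fin d → ℤ) → ℂ) (hu : Summable fun x => ‖u x‖ ^ 2) :
    Summable fun x => ‖S u x‖ ^ 2 :=
  Summable.of_nonneg_of_le (fun x => by positivity) (fun x => S_le u x)
    ((summ_nb u hu).mul_left _)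

/-- the sum of the neighbours is symmetric -/
theorem symm (P Q : (Fin d → ℤ) → ℂ) (hP : Summable fun x => ‖P x‖ ^ 2)
    (hQ : Summable fun x => ‖Q x‖ ^ 2) :
    ∑' x, (starRingEnd ℂ) (P x) * S Q x = ∑' x, (starRingEnd ℂ) (S P x) * Q x := by
  have k1 : ∀ i : Fin d, Summable fun x => (starRingEnd ℂ) (P x) * Q (x + Pi.single i 1) :=
    fun i => summ_mul P (fun x => Q (x + Pi.single i 1)) hP (summ_shift Q _ hQ)
  have k2 : ∀ i : Fin d, Summable fun x => (starRingEnd ℂ) (P x) * Q (x - Pi.single i 1) :=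
    fun i => summ_mul P (fun x => Q (x - Pi.single i 1)) hP (summ_shift' Q _ hQ)
  have k3 : ∀ i : Fin d, Summable fun x => (starRingEnd ℂ) (P (x + Pi.single i 1)) * Q x :=
    fun i => summ_mul (fun x => P (x + Pi.single i 1)) Q (summ_shift P _ hP) hQ
  have k4 : ∀ i : Fin d, Summable fun x => (starRingEnd ℂ) (P (x - Pi.single i 1)) * Q x :=
    fun i => summ_mul (fun x => P (x - Pi.single i 1)) Q (summ_shift' P _ hP) hQ
  have e1 : ∀ x, (starRingEnd ℂ) (P x) * S Q x = ∑ i : Fin d,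
      ((starRingEnd ℂ) (P x) * Q (x + Pi.single i 1) +
        (starRingEnd ℂ) (P x) * Q (x - Pi.single i 1)) := by
    intro x
    unfold S
    rw [Finset.mul_sum]
    exact Finset.sum_congr rfl fun i _ => by ring
  have e2 : ∀ x, (starRingEnd ℂ) (S P x) * Q x = ∑ i : Fin d,
      ((starRingEnd ℂ) (P (x + Pi.single i 1)) * Q x +
        (starRingEnd ℂ) (P (x - Pi.single i 1)) * Q x) := by
    intro x
    unfold S
    rw [map_sum, Finset.sum_mul]
    exact Finset.sum_congr rfl fun i _ => by rw [map_add]; ring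
  rw [tsum_congr e1, tsum_congr e2, Summable.tsum_finsetSum fun i _ => (k1 i).add (k2 i),
    Summable.tsum_finsetSum fun i _ => (k3 i).add (k4 i)]
  refine Finset.sum_congr rfl fun i _ => ?_
  rw [(k1 i).tsum_add (k2 i), (k3 i).tsum_add (k4 i)]
  have a1 : ∑' x, (starRingEnd ℂ) (P x) * Q (x + Pi.single i 1) =
      ∑' x, (starRingEnd ℂ) (P (x - Pi.single i 1)) * Q x := by
    have := shiftsum (fun x => (starRingEnd ℂ) (P (x - Pi.single i 1)) * Q x) (Pi.single i 1)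
    simpa using this
  have a2 : ∑' x, (starRingEnd ℂ) (P x) * Q (x - Pi.single i 1) =
      ∑' x, (starRingEnd ℂ) (P (x + Pi.single i 1)) * Q x := by
    have := shiftsum' (fun x => (starRingEnd ℂ) (P (x + Pi.single i 1)) * Q x) (Pi.single i 1)
    simpa using this
  rw [a1, a2]
  ring

/-- **the norm of the resolvent**, any real potential -/
theorem res_bound (V : (Fin d → ℤ) → ℝ) (z : ℂ) (hz : 0 < z.im) (w f : (Fin d → ℤ) → ℂ)
    (hw : Summable fun x => ‖w x‖ ^ 2) (hf : Summable fun x => ‖f x‖ ^ 2)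
    (heq : ∀ x, S w x + (V x : ℂ) * w x - z * w x = f x) :
    z.im ^ 2 * ∑' x, ‖w x‖ ^ 2 ≤ ∑' x, ‖f x‖ ^ 2 := by
  have s1 := summ_mul w f hw hf
  have s2 := summ_mul w (S w) hw (summ_S w hw)
  -- the imaginary parts
  have e1 : ∀ x, ((starRingEnd ℂ) (w x) * f x).im =
      ((starRingEnd ℂ) (w x) * S w x).im - z.im * ‖w x‖ ^ 2 := by
    intro x
    rw [← heq x]
    have e3 : (starRingEnd ℂ) (w x) * (S w x + (V x : ℂ) * w x - z * w x) =
        (starRingEnd ℂ) (w x) * S w x + (V x : ℂ) * ((starRingEnd ℂ) (w x) * w x) -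
          z * ((starRingEnd ℂ) (w x) * w x) := by ring
    have e4 : (starRingEnd ℂ) (w x) * w x = ((‖w x‖ ^ 2 : ℝ) : ℂ) := by
      rw [← Complex.normSq_eq_conj_mul_self, Complex.normSq_eq_norm_sq]
    rw [e3, e4, Complex.sub_im, Complex.add_im, ← Complex.ofReal_mul, Complex.ofReal_im, add_zero,
      Complex.im_mul_ofReal]
  have e2 : (∑' x, (starRingEnd ℂ) (w x) * S w x).im = 0 := by
    have h1 := symm w w hw hw
    have h2 : (starRingEnd ℂ) (∑' x, (starRingEnd ℂ) (w x) * S w x) =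
        ∑' x, (starRingEnd ℂ) (S w x) * w x := by
      rw [Complex.conj_tsum]
      refine tsum_congr fun x => ?_
      rw [map_mul, Complex.conj_conj, mul_comm]
    rw [← h1] at h2
    exact Complex.conj_eq_iff_im.1 h2
  have i1 : Summable fun x => ((starRingEnd ℂ) (w x) * f x).im :=
    (Complex.hasSum_im s1.hasSum).summable
  have i2 : Summable fun x => ((starRingEnd ℂ) (w x) * S w x).im :=
    (Complex.hasSum_im s2.hasSum).summable
  have e5 : ∑' x, ((starRingEnd ℂ) (w x) * f x).im = -(z.im * ∑' x, ‖w x‖ ^ 2) := by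
    rw [tsum_congr e1, i2.tsum_sub (hw.mul_left _), tsum_mul_left, ← Complex.im_tsum s2, e2,
      zero_sub]
  have e6 : z.im * ∑' x, ‖w x‖ ^ 2 = ∑' x, -((starRingEnd ℂ) (w x) * f x).im := by
    rw [tsum_neg, e5, neg_neg]
  have e7 : ∑' x, -((starRingEnd ℂ) (w x) * f x).im ≤
      ∑' x, (z.im / 2 * ‖w x‖ ^ 2 + 1 / (2 * z.im) * ‖f x‖ ^ 2) := by
    refine i1.neg.tsum_le_tsum (fun x => ?_) ((hw.mul_left _).add (hf.mul_left _))
    have h1 : -((starRingEnd ℂ) (w x) * f x).im ≤ ‖w x‖ * ‖f x‖ := by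
      have h2 := Complex.abs_im_le_norm ((starRingEnd ℂ) (w x) * f x)
      rw [norm_mul, Complex.norm_conj] at h2
      exact (neg_le_abs _).trans h2
    refine h1.trans ?_
    have h3 : z.im / 2 * ‖w x‖ ^ 2 + 1 / (2 * z.im) * ‖f x‖ ^ 2 - ‖w x‖ * ‖f x‖ =
        1 / (2 * z.im) * (z.im * ‖w x‖ - ‖f x‖) ^ 2 := by
      field_simp
      ring
    have h4 : 0 ≤ 1 / (2 * z.im) * (z.im * ‖w x‖ - ‖f x‖) ^ 2 := by positivity
    linarith
  rw [(hw.mul_left _).tsum_add (hf.mul_left _), tsum_mul_left, tsum_mul_left, ← e6] at e7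
  have h5 : z.im / 2 * ∑' x, ‖w x‖ ^ 2 ≤ 1 / (2 * z.im) * ∑' x, ‖f x‖ ^ 2 := by linarith
  have h6 := mul_le_mul_of_nonneg_left h5 (show 0 ≤ 2 * z.im by positivity)
  have h7 : 2 * z.im * (z.im / 2 * ∑' x, ‖w x‖ ^ 2) = z.im ^ 2 * ∑' x, ‖w x‖ ^ 2 := by ring
  have h8 : 2 * z.im * (1 / (2 * z.im) * ∑' x, ‖f x‖ ^ 2) = ∑' x, ‖f x‖ ^ 2 := by
    field_simp
  linarith

/-! ### Cutting off -/

/-- the cut-off function: one for `|x| ≤ R`, zero for `|x| ≥ 2 R` -/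
noncomputable def chi (R : ℝ) (x : Fin d → ℤ) : ℝ := max 0 (min 1 (2 - ‖x‖ / R))

theorem chi_nonneg (R : ℝ) (x : Fin d → ℤ) : 0 ≤ chi R x := le_max_left _ _

theorem chi_le_one (R : ℝ) (x : Fin d → ℤ) : chi R x ≤ 1 :=
  max_le zero_le_one (min_le_left _ _)

theorem chi_abs (R : ℝ) (x : Fin d → ℤ) : |chi R x| ≤ 1 := by
  rw [abs_of_nonneg (chi_nonneg R x)]
  exact chi_le_one R x

theorem chi_one {R : ℝ} (hR : 0 < R) (x : Fin d → ℤ) (hx : ‖x‖ ≤ R) : chi R x = 1 := by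
  unfold chi
  have h1 : ‖x‖ / R ≤ 1 := (div_le_one hR).2 hx
  rw [min_eq_left (by linarith), max_eq_right zero_le_one]

theorem chi_zero {R : ℝ} (hR : 0 < R) (x : Fin d → ℤ) (hx : 2 * R ≤ ‖x‖) : chi R x = 0 := by
  unfold chi
  have h1 : 2 ≤ ‖x‖ / R := by
    rw [le_div_iff₀ hR]
    exact hx
  rw [max_eq_left]
  exact (min_le_right _ _).trans (by linarith)

theorem norm_single (i : Fin d) : ‖(Pi.single i 1 : Fin d → ℤ)‖ = 1 := by
  rw [Pi.norm_single]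
  simp

theorem chi_lip {R : ℝ} (hR : 0 < R) (x y : Fin d → ℤ) : |chi R x - chi R y| ≤ ‖x - y‖ / R := by
  unfold chi
  have h1 : |(2 - ‖x‖ / R) - (2 - ‖y‖ / R)| ≤ ‖x - y‖ / R := by
    have h2 : (2 - ‖x‖ / R) - (2 - ‖y‖ / R) = (‖y‖ - ‖x‖) / R := by ring
    rw [h2, abs_div, abs_of_pos hR, abs_sub_comm]
    gcongr
    exact abs_norm_sub_norm_le x y
  calc _ ≤ |min 1 (2 - ‖x‖ / R) - min 1 (2 - ‖y‖ / R)| := by
        simpa [max_comm] using abs_max_sub_max_le_abs (min 1 (2 - ‖x‖ / R)) (min 1 (2 - ‖y‖ / R)) 0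
    _ ≤ |(2 - ‖x‖ / R) - (2 - ‖y‖ / R)| := by
        have := abs_min_sub_min_le_max 1 (2 - ‖x‖ / R) 1 (2 - ‖y‖ / R)
        simpa using this
    _ ≤ _ := h1

/-- the commutator with the cut-off function -/
noncomputable def com (R : ℝ) (u : (Fin d → ℤ) → ℂ) (x : Fin d → ℤ) : ℂ :=
  S (fun y => (chi R y : ℂ) * u y) x - (chi R x : ℂ) * S u x

theorem com_le {R : ℝ} (hR : 0 < R) (u : (Fin d → ℤ) → ℂ) (x : Fin d → ℤ) :
    ‖com R u x‖ ^ 2 ≤ 2 * d / R ^ 2 *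
      ∑ i : Fin d, (‖u (x + Pi.single i 1)‖ ^ 2 + ‖u (x - Pi.single i 1)‖ ^ 2) := by
  have h0 : com R u x = ∑ i : Fin d, (((chi R (x + Pi.single i 1) - chi R x : ℝ) : ℂ) *
      u (x + Pi.single i 1) + ((chi R (x - Pi.single i 1) - chi R x : ℝ) : ℂ) *
      u (x - Pi.single i 1)) := by
    unfold com S
    rw [Finset.mul_sum, ← Finset.sum_sub_distrib]
    refine Finset.sum_congr rfl fun i _ => ?_
    push_cast
    ring
  have h1 : ‖com R u x‖ ≤ 1 / R * ∑ i : Fin d,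
      (‖u (x + Pi.single i 1)‖ + ‖u (x - Pi.single i 1)‖) := by
    rw [h0, Finset.mul_sum]
    refine (norm_sum_le _ _).trans (Finset.sum_le_sum fun i _ => ?_)
    refine (norm_add_le _ _).trans ?_
    rw [norm_mul, norm_mul, Complex.norm_real, Complex.norm_real, Real.norm_eq_abs,
      Real.norm_eq_abs, mul_add]
    have a1 := chi_lip hR (x + Pi.single i 1) x
    have a2 := chi_lip hR (x - Pi.single i 1) x
    rw [add_sub_cancel_left, norm_single] at a1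
    rw [sub_sub_cancel_left, norm_neg, norm_single] at a2
    gcongr
  have h2 : (∑ i : Fin d, (‖u (x + Pi.single i 1)‖ + ‖u (x - Pi.single i 1)‖)) ^ 2 ≤
      d * ∑ i : Fin d, (‖u (x + Pi.single i 1)‖ + ‖u (x - Pi.single i 1)‖) ^ 2 := by
    have := sq_sum_le_card_mul_sum_sq (s := (Finset.univ : Finset (Fin d)))
      (f := fun i => ‖u (x + Pi.single i 1)‖ + ‖u (x - Pi.single i 1)‖)
    rwa [Finset.card_univ, Fintype.card_fin] at this
  have h3 : (∑ i : Fin d, (‖u (x + Pi.single i 1)‖ + ‖u (x - Pi.single i 1)‖)) ^ 2 ≤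
      2 * d * ∑ i : Fin d, (‖u (x + Pi.single i 1)‖ ^ 2 + ‖u (x - Pi.single i 1)‖ ^ 2) := by
    refine h2.trans ?_
    calc _ ≤ (d : ℝ) * ∑ i : Fin d,
          2 * (‖u (x + Pi.single i 1)‖ ^ 2 + ‖u (x - Pi.single i 1)‖ ^ 2) := by
          gcongr with i
          nlinarith [sq_nonneg (‖u (x + Pi.single i 1)‖ - ‖u (x - Pi.single i 1)‖)]
      _ = _ := by
          rw [← Finset.mul_sum]
          ring
  calc ‖com R u x‖ ^ 2 ≤ (1 / R * ∑ i : Fin d,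
        (‖u (x + Pi.single i 1)‖ + ‖u (x - Pi.single i 1)‖)) ^ 2 :=
        pow_le_pow_left₀ (norm_nonneg _) h1 2
    _ = 1 / R ^ 2 * (∑ i : Fin d, (‖u (x + Pi.single i 1)‖ + ‖u (x - Pi.single i 1)‖)) ^ 2 := by
        rw [mul_pow, div_pow, one_pow]
    _ ≤ 1 / R ^ 2 * (2 * d * ∑ i : Fin d,
        (‖u (x + Pi.single i 1)‖ ^ 2 + ‖u (x - Pi.single i 1)‖ ^ 2)) := by gcongr
    _ = _ := by ring

theorem summ_com {R : ℝ} (hR : 0 < R) (u : (Fin d → ℤ) → ℂ) (hu : Summable fun x => ‖u x‖ ^ 2) :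
    Summable fun x => ‖com R u x‖ ^ 2 :=
  Summable.of_nonneg_of_le (fun x => by positivity) (fun x => com_le hR u x)
    ((summ_nb u hu).mul_left _)

theorem sum_com {R : ℝ} (hR : 0 < R) (u : (Fin d → ℤ) → ℂ) (hu : Summable fun x => ‖u x‖ ^ 2) :
    ∑' x, ‖com R u x‖ ^ 2 ≤ (2 * d / R) ^ 2 * ∑' x, ‖u x‖ ^ 2 := by
  refine ((summ_com hR u hu).tsum_le_tsum (fun x => com_le hR u x)
    ((summ_nb u hu).mul_left _)).trans (le_of_eq ?_)
  rw [tsum_mul_left, sum_nb u hu]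
  ring

/-- the equation of the cut-off function -/
theorem cut_eq (R : ℝ) (V V' : (Fin d → ℤ) → ℝ) (hR : 0 < R)
    (hV : ∀ x : Fin d → ℤ, ‖x‖ < 2 * R → V x = V' x) (z : ℂ) (u g : (Fin d → ℤ) → ℂ)
    (heq : ∀ x, S u x + (V x : ℂ) * u x - z * u x = g x) (x : Fin d → ℤ) :
    S (fun y => (chi R y : ℂ) * u y) x + (V' x : ℂ) * ((chi R x : ℂ) * u x) -
      z * ((chi R x : ℂ) * u x) = (chi R x : ℂ) * g x + com R u x := by
  have h1 : (V' x : ℂ) * ((chi R x : ℂ) * u x) = (V x : ℂ) * ((chi R x : ℂ) * u x) := by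
    by_cases h : ‖x‖ < 2 * R
    · rw [hV x h]
    · rw [chi_zero hR x (not_lt.1 h)]
      simp
  rw [h1, ← heq x]
  unfold com
  ring

/-- **two potentials which agree on a large ball** -/
theorem transfer (R : ℝ) (V V' : (Fin d → ℤ) → ℝ) (hR : 0 < R)
    (hV : ∀ x : Fin d → ℤ, ‖x‖ < 2 * R → V x = V' x) (z : ℂ) (hz : 0 < z.im)
    (u u' g : (Fin d → ℤ) → ℂ) (hu : Summable fun x => ‖u x‖ ^ 2)
    (hu' : Summable fun x => ‖u' x‖ ^ 2) (hg : Summable fun x => ‖g x‖ ^ 2)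
    (hgR : ∀ x : Fin d → ℤ, R < ‖x‖ → g x = 0)
    (heq : ∀ x, S u x + (V x : ℂ) * u x - z * u x = g x)
    (heq' : ∀ x, S u' x + (V' x : ℂ) * u' x - z * u' x = g x) :
    ∑' x, ‖u x - u' x‖ ^ 2 ≤ (4 * d / (R * z.im ^ 2)) ^ 2 * ∑' x, ‖g x‖ ^ 2 := by
  have hSadd : ∀ (v w : (Fin d → ℤ) → ℂ) x, S (fun y => v y - w y) x = S v x - S w x := by
    intro v w x
    unfold S
    rw [← Finset.sum_sub_distrib]
    exact Finset.sum_congr rfl fun i _ => by ring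
  have hχg : ∀ x, (chi R x : ℂ) * g x = g x := by
    intro x
    by_cases h : R < ‖x‖
    · rw [hgR x h, mul_zero]
    · rw [chi_one hR x (not_lt.1 h), Complex.ofReal_one, one_mul]
  have sχ : Summable fun x => ‖(chi R x : ℂ) * u x‖ ^ 2 := summ_mulr _ u (chi_abs R) hu
  have sneg : ∀ v : (Fin d → ℤ) → ℂ, (Summable fun x => ‖v x‖ ^ 2) →
      Summable fun x => ‖-v x‖ ^ 2 := by
    intro v hv
    simpa using hv
  have s1 : Summable fun x => ‖(chi R x : ℂ) * u x - u' x‖ ^ 2 := by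
    have := summ_add _ _ sχ (sneg u' hu')
    simpa [sub_eq_add_neg] using this
  have s2 : Summable fun x => ‖u x - (chi R x : ℂ) * u x‖ ^ 2 := by
    have := summ_add _ _ hu (sneg _ sχ)
    simpa [sub_eq_add_neg] using this
  have sc := summ_com hR u hu
  have b1 := res_bound V' z hz (fun x => (chi R x : ℂ) * u x - u' x) (com R u) s1 sc (fun x => by
    have h1 := cut_eq R V V' hR hV z u g heq x
    rw [hχg] at h1
    rw [hSadd]
    linear_combination h1 - heq' x)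
  have b2 := res_bound V z hz (fun x => u x - (chi R x : ℂ) * u x) (fun x => -com R u x) s2
    (sneg _ sc) (fun x => by
      have h1 := cut_eq R V V hR (fun _ _ => rfl) z u g heq x
      rw [hχg] at h1
      rw [hSadd]
      linear_combination heq x - h1)
  simp only [norm_neg] at b2
  have b3 := res_bound V z hz u g hu hg heq
  have b4 := sum_com hR u hu
  have b5 := sum_add_le (fun x => (chi R x : ℂ) * u x - u' x)
    (fun x => u x - (chi R x : ℂ) * u x) s1 s2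
  have e1 : ∀ x, (chi R x : ℂ) * u x - u' x + (u x - (chi R x : ℂ) * u x) = u x - u' x :=
    fun x => by ring
  simp only [e1] at b5
  obtain ⟨U, hU⟩ : ∃ U, U = ∑' x, ‖u x‖ ^ 2 := ⟨_, rfl⟩
  obtain ⟨A, hA⟩ : ∃ A, A = ∑' x, ‖(chi R x : ℂ) * u x - u' x‖ ^ 2 := ⟨_, rfl⟩
  obtain ⟨B, hB⟩ : ∃ B, B = ∑' x, ‖u x - (chi R x : ℂ) * u x‖ ^ 2 := ⟨_, rfl⟩
  obtain ⟨Gs, hGs⟩ : ∃ Gs, Gs = ∑' x, ‖g x‖ ^ 2 := ⟨_, rfl⟩
  rw [← hU] at b3 b4
  rw [← hA] at b1 b5
  rw [← hB] at b2 b5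
  rw [← hGs] at b3 ⊢
  have ht2 : 0 < z.im ^ 2 := by positivity
  have c1 : A ≤ (2 * d / R) ^ 2 * U / z.im ^ 2 := by
    rw [le_div_iff₀ ht2]
    linarith
  have c2 : B ≤ (2 * d / R) ^ 2 * U / z.im ^ 2 := by
    rw [le_div_iff₀ ht2]
    linarith
  have c3 : U ≤ Gs / z.im ^ 2 := by
    rw [le_div_iff₀ ht2]
    linarith
  calc ∑' x, ‖u x - u' x‖ ^ 2 ≤ 4 * ((2 * d / R) ^ 2 * U / z.im ^ 2) := by linarith
    _ ≤ 4 * ((2 * d / R) ^ 2 * (Gs / z.im ^ 2) / z.im ^ 2) := by gcongr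
    _ = _ := by
        field_simp
        ring

end Pool.Agent.X133.GA
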