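import Pool.Agent.TH794.LL2.Fin2

/-! The comparison of the local density of states with the free one. -/

set_option autoImplicit false

open scoped BigOperators
open MeasureTheory

namespace Pool.Agent.X133.GA

open Pool.Agent.W788.BK
open Pool.Agent.TH794.LL2
open Pool.Agent.W788.BK.Num

theorem det2 (d : ℕ) (K y e3 : ℝ) (hy1 : 1 ≤ y) (hK : 1 ≤ K) (he30 : 0 ≤ e3) (he31 : e3 ≤ 1)
    (n1 : 2 * e3 ≤ 1 / 2 * Real.exp (-(1 / 200) * y))
    (n3 : 800 * K * y * Real.exp (-(211 / 100) * y) ≤ Real.exp (-(421 / 200) * y))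
    (Gf : ℝ → ℝ) (hG : ∀ E, |Gf E| ≤ K) (lam : ℝ) (ξ ω : (Fin d → ℤ) → ℝ) (hξ : ∀ x, ξ x = -ω x)
    (a : Fin d → ℤ)
    (hL : ∀ (E : ℝ) (ur ui : (Fin d → ℤ) → ℝ),
      LG d lam ξ a E (Real.exp (-(211 / 100) * y)) ur ui → |ui a - Gf E| ≤ e3)
    (hF : ∀ (σ : ℝ) (ξ : (Fin d → ℤ) → ℝ) (a : Fin d → ℤ) (E : ℝ) (ur ui : (Fin d → ℤ) → ℝ),
        (∀ x, σ * ξ x = 0) → LG d σ ξ a E (Real.exp (-(211 / 100) * y)) ur ui →
        |ui a - Gf E| ≤ e3)
    (m m0 : Measure ℝ) [IsFiniteMeasure m] [IsFiniteMeasure m0]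
    (hm : Res d (fun x => 2 * d + lam * ω x) a m)
    (hm0 : Res d (fun _ => 2 * d) a m0) (E s : ℝ) (hs : Real.exp (-(21 / 10) * y) ≤ s) :
    |m.real (Set.Icc (E - s) (E + s)) - m0.real (Set.Icc (E - s) (E + s))| ≤
      Real.exp (-(1 / 200) * y) * s := by
  obtain ⟨t, ht⟩ : ∃ t, t = Real.exp (-(211 / 100) * y) := ⟨_, rfl⟩
  rw [← ht] at hL hF n3
  have ht0 : 0 < t := by rw [ht]; positivity
  have hs0 : 0 < s := lt_of_lt_of_le (Real.exp_pos _) hs
  -- the Poisson integrals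
  have p1 : ∀ E, |Po m E t - Gf (2 * d - E)| ≤ e3 := by
    intro E
    obtain ⟨ur, ui, h1, h2⟩ := po_spec (fun x => 2 * d + lam * ω x) ξ (2 * d) lam
      (fun x => by rw [hξ x]; ring) a m hm E t ht0
    rw [h2]
    exact hL _ ur ui h1
  have p2 : ∀ E, |Po m0 E t - Gf (2 * d - E)| ≤ e3 := by
    intro E
    obtain ⟨ur, ui, h1, h2⟩ := po_spec (fun _ : Fin d → ℤ => (2 * d : ℝ)) (fun _ => 0) (2 * d) 0
      (fun x => by ring) a m0 hm0 E t ht0
    rw [h2]
    exact hF 0 (fun _ => 0) a _ ur ui (fun x => by ring) h1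
  have hmass := mass_spec (fun x => 2 * d + lam * ω x) a m hm
  have hmass0 := mass_spec (fun _ : Fin d → ℤ => (2 * d : ℝ)) a m0 hm0
  obtain ⟨N, hN⟩ : ∃ N : ℕ, N = ⌈4 * y⌉₊ := ⟨_, rfl⟩
  have hN1 : 4 * y ≤ N := by rw [hN]; exact Nat.le_ceil _
  have hN2 : (N : ℝ) ≤ 4 * y + 1 := by
    rw [hN]
    exact (Nat.ceil_lt_add_one (by linarith)).le
  have hpow : (1 / 2 : ℝ) ^ N ≤ t := by
    have h1 : (1 / 2 : ℝ) ^ N = Real.exp (-(N * Real.log 2)) := by
      rw [Real.exp_neg, mul_comm, Real.exp_mul, Real.exp_log (by norm_num), Real.rpow_natCast,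
        one_div, inv_pow]
    rw [h1, ht]
    apply Real.exp_le_exp.2
    have h2 := Real.log_two_gt_d9
    have h3 : 4 * y * 0.69 ≤ N * Real.log 2 := mul_le_mul hN1 (by linarith) (by norm_num)
      (by positivity)
    linarith
  have hc := meas_compare m m0 hmass hmass0 t (K + 1) (2 * e3) ht0
    (fun E => by
      have h1 := (abs_le.1 (p1 E)).2
      have h2 := (abs_le.1 (hG (2 * d - E))).2
      linarith)
    (fun E => by
      have h1 := (abs_le.1 (p2 E)).2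
      have h2 := (abs_le.1 (hG (2 * d - E))).2
      linarith)
    (fun E => by
      have h1 := p1 E
      have h2 := p2 E
      have h4 := abs_sub_le (Po m E t) (Gf (2 * d - E)) (Po m0 E t)
      rw [abs_sub_comm (Gf (2 * d - E)) (Po m0 E t)] at h4
      linarith) E s hs0.le N
  refine hc.trans ?_
  have q1 : (2 * e3) * s ≤ 1 / 2 * Real.exp (-(1 / 200) * y) * s :=
    mul_le_mul_of_nonneg_right n1 hs0.le
  have q2 : 4 * ((N + 1 : ℝ) * (8 * (K + 1) * t) + 2 * (1 / 2 : ℝ) ^ N) ≤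
      1 / 2 * Real.exp (-(1 / 200) * y) * s := by
    calc 4 * ((N + 1 : ℝ) * (8 * (K + 1) * t) + 2 * (1 / 2 : ℝ) ^ N) ≤
        4 * ((6 * y) * (8 * (2 * K) * t) + 2 * t) := by
          have h1 : (N : ℝ) + 1 ≤ 6 * y := by linarith
          have h2 : K + 1 ≤ 2 * K := by linarith
          gcongr
      _ ≤ 400 * K * y * t := by
          have h3 : t ≤ K * y * t := by
            apply le_mul_of_one_le_left ht0.le
            exact one_le_mul_of_one_le_of_one_le hK hy1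
          linarith
      _ = 1 / 2 * (800 * K * y * t) := by ring
      _ ≤ 1 / 2 * Real.exp (-(421 / 200) * y) := by linarith
      _ = 1 / 2 * Real.exp (-(1 / 200) * y) * Real.exp (-(21 / 10) * y) := by
          rw [mul_assoc, ex_mul]
          norm_num
      _ ≤ _ := by gcongr
  linarith

end Pool.Agent.X133.GA
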