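import Pool.Agent.X133.GA.Core

/-! Green functions of unbounded potentials. -/

set_option autoImplicit false

open scoped BigOperators Topology
open MeasureTheory Filter

namespace Pool.Agent.X133.GA

open Pool.Agent.W788.LD.Spec (S)
open Pool.Agent.TH794.LL2

variable {d : ℕ}

/-- a potential is bounded on balls -/
theorem bdd_ball (V : (Fin d → ℤ) → ℝ) (R : ℝ) : ∃ N : ℕ, ∀ x : Fin d → ℤ, ‖x‖ < R → |V x| ≤ N := by
  obtain ⟨n, hn⟩ := exists_nat_ge R
  obtain ⟨F, hF⟩ : ∃ F : Finset (Fin d → ℤ), F = Finset.Icc (fun _ => -(n : ℤ)) (fun _ => (n : ℤ)) :=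
    ⟨_, rfl⟩
  obtain ⟨N, hN⟩ := exists_nat_ge (∑ x ∈ F, |V x|)
  refine ⟨N, fun x hx => ?_⟩
  have hxF : x ∈ F := by
    rw [hF, Finset.mem_Icc]
    have h2 : ∀ i, |x i| ≤ (n : ℤ) := by
      intro i
      have h3 : ‖x i‖ ≤ ‖x‖ := norm_le_pi_norm x i
      rw [Int.norm_eq_abs] at h3
      have h4 : ((|x i| : ℤ) : ℝ) ≤ (n : ℝ) := by
        push_cast
        linarith
      exact_mod_cast h4
    exact ⟨fun i => (abs_le.1 (h2 i)).1, fun i => (abs_le.1 (h2 i)).2⟩
  exact (Finset.single_le_sum (f := fun x => |V x|) (fun y _ => abs_nonneg _) hxF).trans hN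

/-- the resolvent applied to `δ_a` -/
structure Gr (d : ℕ) (V : (Fin d → ℤ) → ℝ) (a : Fin d → ℤ) (E t : ℝ) (u : (Fin d → ℤ) → ℂ) :
    Prop where
  sq : Summable fun x => ‖u x‖ ^ 2
  eq : ∀ x, S u x + (V x : ℂ) * u x - ((E : ℂ) + (t : ℂ) * Complex.I) * u x =
    if x = a then 1 else 0

theorem sum_delta (a : Fin d → ℤ) : (Summable fun x : Fin d → ℤ => ‖(if x = a then 1 else 0 : ℂ)‖ ^ 2) ∧
    ∑' x : Fin d → ℤ, ‖(if x = a then 1 else 0 : ℂ)‖ ^ 2 = 1 := by
  constructor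
  · refine summable_of_ne_finset_zero (s := {a}) fun x hx => ?_
    rw [Finset.mem_singleton] at hx
    rw [if_neg hx]
    simp
  · rw [tsum_eq_single a]
    · simp
    · intro x hx
      rw [if_neg hx]
      simp

/-- bounded potentials -/
theorem gr_bdd (V : (Fin d → ℤ) → ℝ) (B : ℝ) (hB : ∀ x, |V x| ≤ B) (a : Fin d → ℤ) (E t : ℝ)
    (ht : 0 < t) : ∃ u, Gr d V a E t u := by
  obtain ⟨vr, vi, hL⟩ := LG_exists 1 V B (fun x => by rw [one_mul]; exact hB x) a E t ht
  obtain ⟨s, q⟩ := LG_complex hL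
  refine ⟨_, s, fun x => ?_⟩
  have := q x
  rw [one_mul] at this
  exact this

theorem gr_norm {V : (Fin d → ℤ) → ℝ} {a : Fin d → ℤ} {E t : ℝ} {u : (Fin d → ℤ) → ℂ} (ht : 0 < t)
    (h : Gr d V a E t u) : ∑' x, ‖u x‖ ^ 2 ≤ (t⁻¹) ^ 2 := by
  have hz : ((E : ℂ) + (t : ℂ) * Complex.I).im = t := by simp
  have h1 := res_bound V ((E : ℂ) + (t : ℂ) * Complex.I) (by rw [hz]; exact ht) u _ h.sq
    (sum_delta a).1 h.eq
  rw [hz, (sum_delta a).2] at h1
  rw [inv_pow, ← one_div, le_div_iff₀ (by positivity), mul_comm]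
  exact h1

/-- **existence** -/
theorem gr_exists (V : (Fin d → ℤ) → ℝ) (a : Fin d → ℤ) (E t : ℝ) (ht : 0 < t) :
    ∃ u, Gr d V a E t u := by
  -- the clipped potentials
  obtain ⟨W, hW⟩ : ∃ W : ℕ → (Fin d → ℤ) → ℝ, W = fun (n : ℕ) x => max (-(n : ℝ)) (min (n : ℝ) (V x)) :=
    ⟨_, rfl⟩
  have hWb : ∀ (n : ℕ) x, |W n x| ≤ n := by
    intro n x
    have hn : (0 : ℝ) ≤ n := Nat.cast_nonneg n
    rw [hW, abs_le]
    exact ⟨le_max_left _ _, max_le (by linarith) (min_le_left _ _)⟩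
  have hWe : ∀ (n : ℕ) x, |V x| ≤ n → W n x = V x := by
    intro n x h
    obtain ⟨h1, h2⟩ := abs_le.1 h
    rw [hW]
    simp only
    rw [min_eq_right h2, max_eq_right h1]
  choose u hu using fun n : ℕ => gr_bdd (W n) n (hWb n) a E t ht
  have hz : ((E : ℂ) + (t : ℂ) * Complex.I).im = t := by simp
  have hd0 : (0 : ℝ) ≤ d := Nat.cast_nonneg d
  -- Cauchy sequences
  have hC : ∀ x, CauchySeq fun n => u n x := by
    intro x
    rw [Metric.cauchySeq_iff']
    intro ε hε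
    obtain ⟨R, hR⟩ : ∃ R : ℝ, R = max (‖a‖ + 1) ((4 * d + 1) / (ε * t ^ 2)) := ⟨_, rfl⟩
    have hRa : ‖a‖ < R := by
      have := le_max_left (‖a‖ + 1) ((4 * d + 1) / (ε * t ^ 2))
      rw [← hR] at this
      linarith
    have hR0 : 0 < R := (norm_nonneg a).trans_lt hRa
    have hRε : 4 * d / (R * t ^ 2) < ε := by
      have h1 := le_max_right (‖a‖ + 1) ((4 * d + 1) / (ε * t ^ 2))
      rw [← hR, div_le_iff₀ (by positivity)] at h1
      rw [div_lt_iff₀ (by positivity)]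
      linarith
    obtain ⟨N, hN⟩ := bdd_ball V (2 * R)
    refine ⟨N, fun n hn => ?_⟩
    have hn' : (N : ℝ) ≤ n := by exact_mod_cast hn
    have h1 := transfer R (W n) (W N) hR0 (fun y hy => by
      rw [hWe n y ((hN y hy).trans hn'), hWe N y (hN y hy)]) ((E : ℂ) + (t : ℂ) * Complex.I)
      (by rw [hz]; exact ht) (u n) (u N) _ (hu n).sq (hu N).sq (sum_delta a).1
      (fun y hy => by
        rw [if_neg]
        rintro rfl
        linarith) (hu n).eq (hu N).eq
    rw [hz, (sum_delta a).2, mul_one] at h1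
    have h3 : Summable fun y => ‖u n y - u N y‖ ^ 2 := by
      have := summ_add (u n) (fun y => -u N y) (hu n).sq (by
        simpa only [norm_neg] using (hu N).sq)
      simpa only [sub_eq_add_neg] using this
    have h4 : ‖u n x - u N x‖ ^ 2 ≤ (4 * d / (R * t ^ 2)) ^ 2 :=
      (h3.le_tsum x fun y _ => by positivity).trans h1
    have h5 : ‖u n x - u N x‖ ≤ 4 * d / (R * t ^ 2) :=
      le_of_sq_le_sq h4 (by positivity)
    rw [dist_eq_norm]
    linarith
  choose v hv using fun x => cauchySeq_tendsto_of_complete (hC x)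
  refine ⟨v, ?_, fun x => ?_⟩
  · refine summable_of_sum_le (c := (t⁻¹) ^ 2) (fun x => by positivity) fun F => ?_
    have h1 : Tendsto (fun n => ∑ x ∈ F, ‖u n x‖ ^ 2) atTop (𝓝 (∑ x ∈ F, ‖v x‖ ^ 2)) :=
      tendsto_finsetSum _ fun x _ => ((hv x).norm).pow 2
    refine le_of_tendsto' h1 fun n => ?_
    exact ((hu n).sq.sum_le_tsum F fun x _ => by positivity).trans (gr_norm ht (hu n))
  · have h1 : Tendsto (fun n => S (u n) x + (V x : ℂ) * u n x -
        ((E : ℂ) + (t : ℂ) * Complex.I) * u n x) atTop (𝓝 (S v x + (V x : ℂ) * v x -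
        ((E : ℂ) + (t : ℂ) * Complex.I) * v x)) := by
      refine Tendsto.sub (Tendsto.add ?_ ((hv x).const_mul _)) ((hv x).const_mul _)
      unfold S
      exact tendsto_finsetSum _ fun i _ => (hv _).add (hv _)
    obtain ⟨N, hN⟩ := exists_nat_ge |V x|
    have h2 : (fun n => S (u n) x + (V x : ℂ) * u n x -
        ((E : ℂ) + (t : ℂ) * Complex.I) * u n x) =ᶠ[atTop] fun _ => if x = a then 1 else 0 := by
      filter_upwards [eventually_ge_atTop N] with n hn
      have hn' : (N : ℝ) ≤ n := by exact_mod_cast hn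
      have h3 := (hu n).eq x
      rw [hWe n x (hN.trans hn')] at h3
      exact h3
    exact tendsto_nhds_unique h1 ((tendsto_congr' h2).2 tendsto_const_nhds)

end Pool.Agent.X133.GA
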