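import Pool.Agent.X133.GA.Gauss

/-! The variance of the clipped Gaussian variables. -/

set_option autoImplicit false

open scoped BigOperators
open MeasureTheory ProbabilityTheory

namespace Pool.Agent.X133.GA

theorem gam_pow (n : ℕ) (hn : n ≠ 0) (he : Even n) : Integrable (fun t : ℝ => t ^ n) gam := by
  have h := memLp_id_gaussianReal (μ := 0) (v := 1) (n : NNReal)
  have h2 := h.integrable_norm_pow (p := n) hn
  refine h2.congr (Filter.Eventually.of_forall fun t => ?_)
  simp only [id_eq, Real.norm_eq_abs]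
  exact Even.pow_abs he t

theorem gam_two : ∫ s, s ^ 2 ∂gam = 1 := by
  have h1 := variance_id_gaussianReal (μ := 0) (v := 1)
  rw [variance_of_integral_eq_zero aemeasurable_id (by simp)] at h1
  simpa using h1

/-- **the variance of the clipped variables** -/
theorem nu_var : ∃ C : ℝ, 0 < C ∧ ∀ B : ℝ, 0 < B → B ^ 2 * ∫ s, s ^ 2 ∂(nu B) ≤ 1 ∧
    1 - C * Real.exp (-B / 2) ≤ B ^ 2 * ∫ s, s ^ 2 ∂(nu B) := by
  obtain ⟨C4, hC4⟩ : ∃ C4, C4 = ∫ s, s ^ 4 ∂gam := ⟨_, rfl⟩
  have hC40 : 0 ≤ C4 := by
    rw [hC4]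
    exact integral_nonneg fun s => by positivity
  refine ⟨C4 / 2 + 2, by positivity, fun B hB => ?_⟩
  have e1 : B ^ 2 * ∫ s, s ^ 2 ∂(nu B) = ∫ s, (B * cl B s) ^ 2 ∂gam := by
    unfold nu
    rw [integral_map (cl_meas B).aemeasurable (by fun_prop), ← integral_const_mul]
    refine integral_congr_ae (Filter.Eventually.of_forall fun s => ?_)
    simp only
    ring
  have i2 := gam_pow 2 (by norm_num) (by decide)
  have i4 := gam_pow 4 (by norm_num) (by decide)
  have hcb : ∀ s, (B * cl B s) ^ 2 ≤ s ^ 2 := by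
    intro s
    by_cases hs : |s| ≤ B
    · rw [cl_eq hB hs]
    · have h1 := cl_abs hB s
      have h2 : |B * cl B s| ≤ B := by
        rw [abs_mul, abs_of_pos hB]
        exact mul_le_of_le_one_right hB.le h1
      rw [← sq_abs, ← sq_abs s]
      exact pow_le_pow_left₀ (abs_nonneg _) (h2.trans (not_le.1 hs).le) 2
  have hmc : Measurable fun s => (B * cl B s) ^ 2 := ((cl_meas B).const_mul B).pow_const 2
  have ic : Integrable (fun s => (B * cl B s) ^ 2) gam := by
    refine i2.mono hmc.aestronglyMeasurable (Filter.Eventually.of_forall fun s => ?_)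
    rw [Real.norm_of_nonneg (sq_nonneg _), Real.norm_of_nonneg (sq_nonneg _)]
    exact hcb s
  have hms : MeasurableSet {s : ℝ | B < |s|} := measurableSet_lt measurable_const measurable_abs
  obtain ⟨r, hr⟩ : ∃ r, r = Real.exp (-B / 2) := ⟨_, rfl⟩
  have hr0 : 0 < r := by rw [hr]; positivity
  have iind : Integrable ({s : ℝ | B < |s|}.indicator fun _ => (1 : ℝ)) gam :=
    (integrable_const 1).indicator hms
  rw [e1]
  constructor
  · rw [← gam_two]
    exact integral_mono ic i2 hcb
  · have h1 : ∀ s, s ^ 2 ≤ (B * cl B s) ^ 2 +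
        (r / 2 * s ^ 4 + 1 / (2 * r) * {s : ℝ | B < |s|}.indicator (fun _ => (1 : ℝ)) s) := by
      intro s
      by_cases hs : B < |s|
      · rw [Set.indicator_of_mem (show s ∈ {s : ℝ | B < |s|} from hs), mul_one]
        have h2 : 0 ≤ (r * s ^ 2 - 1) ^ 2 / (2 * r) := by positivity
        have h3 : (r * s ^ 2 - 1) ^ 2 / (2 * r) = r / 2 * s ^ 4 - s ^ 2 + 1 / (2 * r) := by
          field_simp
          ring
        have h4 := sq_nonneg (B * cl B s)
        linarith
      · rw [Set.indicator_of_notMem (show s ∉ {s : ℝ | B < |s|} from hs), mul_zero,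
          cl_eq hB (not_lt.1 hs)]
        have : 0 ≤ r / 2 * s ^ 4 := by positivity
        linarith
    obtain ⟨ind, hind⟩ : ∃ ind : ℝ → ℝ, ind = {s : ℝ | B < |s|}.indicator (fun _ => (1 : ℝ)) :=
      ⟨_, rfl⟩
    rw [← hind] at iind h1
    have ig : Integrable (fun s => r / 2 * s ^ 4 + 1 / (2 * r) * ind s) gam :=
      (i4.const_mul (r / 2)).add (iind.const_mul (1 / (2 * r)))
    have h2 : ∫ s, s ^ 2 ∂gam ≤ ∫ s, ((B * cl B s) ^ 2 +
        (r / 2 * s ^ 4 + 1 / (2 * r) * ind s)) ∂gam := integral_mono i2 (ic.add ig) h1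
    have h3 : ∫ s, ((B * cl B s) ^ 2 + (r / 2 * s ^ 4 + 1 / (2 * r) * ind s)) ∂gam =
        ∫ s, (B * cl B s) ^ 2 ∂gam + (r / 2 * C4 + 1 / (2 * r) * gam.real {s | B < |s|}) := by
      have k1 := integral_add (μ := gam) (f := fun s => (B * cl B s) ^ 2)
        (g := fun s => r / 2 * s ^ 4 + 1 / (2 * r) * ind s) ic ig
      have k2 := integral_add (μ := gam) (f := fun s => r / 2 * s ^ 4)
        (g := fun s => 1 / (2 * r) * ind s) (i4.const_mul (r / 2)) (iind.const_mul (1 / (2 * r)))
      have k3 : ∫ s, ind s ∂gam = gam.real {s | B < |s|} := by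
        rw [hind, integral_indicator_const _ hms, smul_eq_mul, mul_one]
      rw [k1, k2, integral_const_mul, integral_const_mul, k3, hC4]
    rw [h3, gam_two] at h2
    have h4 := tail B
    have h5 : 1 / (2 * r) * gam.real {s | B < |s|} ≤ 2 * r := by
      calc 1 / (2 * r) * gam.real {s | B < |s|} ≤ 1 / (2 * r) * (4 * Real.exp (-B)) := by gcongr
        _ = 2 * r := by
          have h6 : Real.exp (-B) = r * r := by
            rw [hr, ← Real.exp_add]
            congr 1
            ring
          rw [h6]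
          field_simp
          ring
    rw [← hr]
    linarith

end Pool.Agent.X133.GA
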