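import Pool.Agent.X133.GA.Asm
import Pool.Agent.X133.GA.Det
import Pool.Agent.W193.BK.ES
import Pool.Agent.W240.BK.Var
import Pool.Agent.W540.BK.Fac
import Pool.Agent.W240.BK.Fluct
import Pool.Agent.W340.BK.Conc
import Pool.Agent.W918.BK.Osc
import Pool.Agent.W240.BK.Two
import Pool.Agent.W465.BK.QB
import Pool.Agent.W475.BK.Low
import Pool.Agent.W975.BK.Sup
import Pool.Agent.W790.BK.ADM
import Pool.Agent.W475.BK.Inv
import Pool.Agent.W351.BK.Mb
import Pool.Agent.W363.BK.Site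
import Pool.Agent.W261.BK.Third

/-!
# Gaussian disorder, `d ≥ 3`: no localization below scales beyond the kinetic one, at all energies

`H_σ = Δ + σ ξ` on `ℤ^d`, `d ≥ 3`, `(Δψ)(x) = ∑_{|y-x|=1} ψ(y)`, iid standard Gaussian `ξ`. For every
`ε > 0` there are `c, σ₀, K > 0` such that for `0 < |σ| ≤ σ₀`, with probability at least
`1 - exp(-|σ|^{-c})`, in the box of radius `exp(|σ|^{-c})`:

* every spectral measure `m` of a vector `g` supported in the box satisfies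
  `m [E - s, E + s] ≤ K log(1/|σ|) s ‖g‖₁²` at all energies `E` and for all `s ≥ |σ|^{17/8 - ε}`;
* every `ℓ²`-eigenfunction `u`, at whatever energy, satisfies
  `|u(a)|² ≤ K log(1/|σ|) |σ|^{17/8 - ε} ‖u‖²` at the sites `a` of the box;
* local law: at the sites of the box the spectral measure `m` of `δ_a` for `H_σ` and the one `m₀` for
  `Δ` satisfy `|m [E - s, E + s] - m₀ [E - s, E + s]| ≤ |σ|^c s` at all energies and for all
  `s ≥ |σ|^{21/10 - ε}`.

The kinetic scale is `σ²`. The starting results for the Gaussian model are about the band edge.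

The proof clips the Gaussian variables at `|σ|^{-δ}`, applies the theorems for bounded potentials of
the starting files (`Pool/Agent/W788/BK`, `Pool/Agent/TH794/LL2`) to the rescaled variables, and passes
to the unbounded potential with a cut-off (`Pool/Agent/X133/GA/Cut.lean`).
-/

set_option autoImplicit false

open scoped BigOperators
open MeasureTheory ProbabilityTheory

namespace Pool.Agent.X133.GA.Main

/-- `(H_σ ψ)(x) = ∑_{|y-x|=1} ψ(y) + σ ξ(x) ψ(x)` -/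
noncomputable def H {d : ℕ} (σ : ℝ) (ξ : (Fin d → ℤ) → ℝ) (u : (Fin d → ℤ) → ℂ)
    (x : Fin d → ℤ) : ℂ :=
  ∑ i : Fin d, (u (x + Pi.single i 1) + u (x - Pi.single i 1)) + ((σ * ξ x : ℝ) : ℂ) * u x

/-- square summable functions -/
def SqSummable {d : ℕ} (u : (Fin d → ℤ) → ℂ) : Prop := Summable fun x => ‖u x‖ ^ 2

/-- `m` is the spectral measure of the vector `g` for the self-adjoint operator `A`: a finite measure
whose Borel transform `∫ (E - z)⁻¹ dm(E)` is `⟨g, (A - z)⁻¹ g⟩` for all non-real `z` -/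
def IsSpectralMeasure {d : ℕ} (A : ((Fin d → ℤ) → ℂ) → (Fin d → ℤ) → ℂ) (g : (Fin d → ℤ) → ℂ)
    (m : Measure ℝ) : Prop :=
  IsFiniteMeasure m ∧ ∀ z : ℂ, z.im ≠ 0 → ∃ u : (Fin d → ℤ) → ℂ, SqSummable u ∧
    (∀ x, A u x - z * u x = g x) ∧ ∫ E : ℝ, ((E : ℂ) - z)⁻¹ ∂m = ∑' x, (starRingEnd ℂ) (g x) * u x

/-- the properties of the box of radius `ρ` -/
def Good {d : ℕ} (σ ρ K s₁ s₂ κ : ℝ) (ξ : (Fin d → ℤ) → ℝ) : Prop :=
  (∀ (g : (Fin d → ℤ) → ℂ) (B : Finset (Fin d → ℤ)), (∀ a ∈ B, ‖a‖ ≤ ρ) → (∀ a, a ∉ B → g a = 0) →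
    ∀ m : Measure ℝ, IsSpectralMeasure (H σ ξ) g m → ∀ E s : ℝ, s₁ ≤ s →
      m.real (Set.Icc (E - s) (E + s)) ≤ K * s * (∑ a ∈ B, ‖g a‖) ^ 2) ∧
  (∀ (E : ℝ) (u : (Fin d → ℤ) → ℂ), SqSummable u → (∀ x, H σ ξ u x = (E : ℂ) * u x) →
    ∀ a : Fin d → ℤ, ‖a‖ ≤ ρ → ‖u a‖ ^ 2 ≤ K * s₁ * ∑' x, ‖u x‖ ^ 2) ∧
  (∀ a : Fin d → ℤ, ‖a‖ ≤ ρ → ∀ m m₀ : Measure ℝ, IsSpectralMeasure (H σ ξ) (Pi.single a 1) m →
    IsSpectralMeasure (H 0 ξ) (Pi.single a 1) m₀ → ∀ E s : ℝ, s₂ ≤ s →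
      |m.real (Set.Icc (E - s) (E + s)) - m₀.real (Set.Icc (E - s) (E + s))| ≤ κ * s)

theorem neg_S {d : ℕ} (u : (Fin d → ℤ) → ℂ) (x : Fin d → ℤ) :
    Pool.Agent.W788.LD.Spec.S (fun y => -u y) x =
      -∑ i : Fin d, (u (x + Pi.single i 1) + u (x - Pi.single i 1)) := by
  unfold Pool.Agent.W788.LD.Spec.S
  rw [← Finset.sum_neg_distrib]
  exact Finset.sum_congr rfl fun i _ => by ring

/-- reflection of spectral measures -/
theorem reflect {d : ℕ} {σ : ℝ} {ξ : (Fin d → ℤ) → ℝ} {g : (Fin d → ℤ) → ℂ} {m : Measure ℝ}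
    (h : IsSpectralMeasure (H σ ξ) g m) (z : ℂ) (hz : z.im ≠ 0) :
    ∃ u : (Fin d → ℤ) → ℂ, (Summable fun x => ‖u x‖ ^ 2) ∧
      (∀ x, -Pool.Agent.W788.LD.Spec.S u x + ((2 * d + σ * (-ξ x) : ℝ) : ℂ) * u x - z * u x = g x) ∧
      ∫ t : ℝ, ((t : ℂ) - z)⁻¹ ∂(m.map fun t : ℝ => 2 * d - t) =
        ∑' x, (starRingEnd ℂ) (g x) * u x := by
  obtain ⟨u, hu, heq, hint⟩ := h.2 (2 * d - z) (by simpa using hz)
  refine ⟨fun x => -u x, ?_, fun x => ?_, ?_⟩
  · have hu' : Summable fun x => ‖u x‖ ^ 2 := hu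
    simpa using hu'
  · rw [neg_S, ← heq x]
    unfold H
    push_cast
    ring
  · have hm : Measurable fun t : ℝ => (2 * d - t : ℝ) := by fun_prop
    have hf : AEStronglyMeasurable (fun t : ℝ => ((t : ℂ) - z)⁻¹) (m.map fun t : ℝ => 2 * d - t) := by
      refine Measurable.aestronglyMeasurable ?_
      fun_prop
    rw [integral_map hm.aemeasurable hf]
    have e1 : ∀ t : ℝ, (((2 * d - t : ℝ) : ℂ) - z)⁻¹ = -((t : ℂ) - (2 * d - z))⁻¹ := by
      intro t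
      rw [← inv_neg]
      congr 1
      push_cast
      ring
    simp only [e1]
    rw [integral_neg, hint, ← tsum_neg]
    refine tsum_congr fun x => ?_
    ring

theorem reflect_real (m : Measure ℝ) (c E s : ℝ) :
    (m.map fun t : ℝ => c - t).real (Set.Icc (c - E - s) (c - E + s)) =
      m.real (Set.Icc (E - s) (E + s)) := by
  have hm : Measurable fun t : ℝ => c - t := by fun_prop
  rw [map_measureReal_apply hm measurableSet_Icc]
  congr 1
  ext t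
  simp only [Set.mem_preimage, Set.mem_Icc]
  constructor
  · rintro ⟨h1, h2⟩
    constructor <;> linarith
  · rintro ⟨h1, h2⟩
    constructor <;> linarith

/-- positive couplings -/
theorem pos_main (d : ℕ) (hd : 3 ≤ d) (ε : ℝ) (hε : 0 < ε) :
    ∃ c σ₀ K : ℝ, 0 < c ∧ 0 < σ₀ ∧ 0 < K ∧ ∀ σ : ℝ, 0 < σ → σ ≤ σ₀ →
      ∃ G : Set ((Fin d → ℤ) → ℝ), MeasurableSet G ∧
        1 - Real.exp (-σ ^ (-c)) ≤
          (Measure.infinitePi fun _ : Fin d → ℤ => gaussianReal 0 1).real G ∧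
        ∀ ξ ∈ G, Good σ (Real.exp (σ ^ (-c))) (K * Real.log (1 / σ)) (σ ^ (17 / 8 - ε))
          (σ ^ (21 / 10 - ε)) (σ ^ c) ξ := by
  obtain ⟨δ, hδ⟩ : ∃ δ, δ = min (ε / 3) (1 / 4) := ⟨_, rfl⟩
  have hδ0 : 0 < δ := by rw [hδ]; positivity
  have hδ1 : δ ≤ 1 / 4 := by rw [hδ]; exact min_le_right _ _
  have hδ2 : δ ≤ ε / 3 := by rw [hδ]; exact min_le_left _ _
  obtain ⟨c, hc⟩ : ∃ c, c = min (δ / 2) (1 / 400) := ⟨_, rfl⟩
  have hc0 : 0 < c := by rw [hc]; positivity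
  have hc1 : 2 * c ≤ δ := by
    have : c ≤ δ / 2 := by rw [hc]; exact min_le_left _ _
    linarith
  have hc2 : c ≤ 1 / 400 := by rw [hc]; exact min_le_right _ _
  obtain ⟨Y0, hY01, hev⟩ := Pool.Agent.X133.GA.event
    (Pool.Agent.W261.BK.third Pool.Agent.W540.BK.fac)
    (Pool.Agent.W240.BK.fluct (Pool.Agent.W240.BK.var Pool.Agent.W193.BK.ES.es))
    Pool.Agent.W475.BK.inv Pool.Agent.W351.BK.mb
    (Pool.Agent.W340.BK.Conc.conc Pool.Agent.W193.BK.ES.es)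
    Pool.Agent.W975.BK.sup Pool.Agent.W363.BK.site
    (Pool.Agent.W465.BK.qb (Pool.Agent.W240.BK.two Pool.Agent.W918.BK.Osc.osc))
    Pool.Agent.W475.BK.low Pool.Agent.W790.BK.ADM.adm Pool.Agent.W193.BK.ES.es
    Pool.Agent.W918.BK.Osc.osc d hd δ c hδ1 hc0 hc1 (by linarith)
  obtain ⟨Kd, hKd⟩ : ∃ Kd, Kd = Pool.Agent.TH794.LL2.KK d := ⟨_, rfl⟩
  have hKd1 : 1 ≤ Kd := by
    have := Pool.Agent.TH794.LL2.KK_ge d
    rw [hKd]
    linarith
  have hC1 := Pool.Agent.W788.BK.C1_ge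
  obtain ⟨Y1, hY1⟩ := Filter.eventually_atTop.1
    ((Filter.eventually_ge_atTop (4 / 3 : ℝ)).and
    ((Pool.Agent.W788.BK.Num.ev2 8 (-(11 / 1000)) (-(1 / 200)) 0 (by norm_num)).and
    (Pool.Agent.W788.BK.Num.ev2 (800 * Kd) (-(211 / 100)) (-(421 / 200)) 1 (by norm_num))))
  obtain ⟨Y2, hY2⟩ : ∃ Y2, Y2 = max Y0 (2 * max Y1 1) := ⟨_, rfl⟩
  refine ⟨c, Real.exp (-Y2), 20 * (2 * (192 * (Pool.Agent.W788.BK.C1 * (17 / 8)))), hc0,
    Real.exp_pos _, by positivity, fun σ hσ hσ0 => ?_⟩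
  obtain ⟨Y, hY⟩ : ∃ Y, Y = Real.log (1 / σ) := ⟨_, rfl⟩
  have hlog : Real.log σ = -Y := by rw [hY, one_div, Real.log_inv, neg_neg]
  have hYY2 : Y2 ≤ Y := by
    have h1 := Real.log_le_log hσ hσ0
    rw [Real.log_exp, hlog] at h1
    linarith
  have hYY0 : Y0 ≤ Y := le_trans (by rw [hY2]; exact le_max_left _ _) hYY2
  have hY12 : 2 * max Y1 1 ≤ Y := le_trans (by rw [hY2]; exact le_max_right _ _) hYY2
  have hYm1 := le_max_left Y1 1
  have hYm2 := le_max_right Y1 1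
  have hYone : 2 ≤ Y := by linarith
  have hσe : Real.exp (-Y) = σ := by rw [← hlog, Real.exp_log hσ]
  have hpow : ∀ p : ℝ, σ ^ p = Real.exp (-p * Y) := by
    intro p
    rw [Real.rpow_def_of_pos hσ, hlog]
    congr 1
    ring
  obtain ⟨Gf, G, hG, hP, hGf, hF, hL⟩ := hev Y hYY0
  obtain ⟨y, hy⟩ : ∃ y, y = (1 - δ) * Y := ⟨_, rfl⟩
  rw [← hy] at hF hL
  have hyY1 : Y1 ≤ y := by rw [hy]; nlinarith
  obtain ⟨n0, n1, n2⟩ := hY1 y hyY1
  rw [pow_zero, mul_one] at n1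
  rw [pow_one] at n2
  have n3 : Real.exp (-(1 / 200) * y) ≤ 1 := Real.exp_le_one_iff.2 (by linarith)
  have hy0 : 0 < y := by linarith
  have hyY : y ≤ Y := by rw [hy]; nlinarith
  refine ⟨G, hG, ?_, fun ξ hξ => ?_⟩
  · rw [hpow, neg_neg]
    exact hP
  obtain ⟨hSM, hLL⟩ := hL ξ hξ
  rw [hσe] at hSM hLL
  have e1 : σ ^ (-c) = Real.exp (c * Y) := by rw [hpow, neg_neg]
  rw [e1]
  have ht1 : Real.exp (-(17 / 8) * y) ≤ σ ^ (17 / 8 - ε) := by
    rw [hpow]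
    apply Real.exp_le_exp.2
    rw [hy]
    nlinarith
  have ht2 : Real.exp (-(21 / 10) * y) ≤ σ ^ (21 / 10 - ε) := by
    rw [hpow]
    apply Real.exp_le_exp.2
    rw [hy]
    nlinarith
  have ht3 : Real.exp (-(1 / 200) * y) ≤ σ ^ c := by
    rw [hpow]
    apply Real.exp_le_exp.2
    rw [hy]
    nlinarith
  have hhalf : Real.exp (-(17 / 8) * y) ≤ 1 / 2 := by
    have h1 : Real.exp (-(17 / 8) * y) ≤ Real.exp (-1) := Real.exp_le_exp.2 (by linarith)
    have h2 : Real.exp (-1) ≤ 1 / 2 := by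
      rw [Real.exp_neg, one_div]
      apply inv_anti₀ (by norm_num)
      have := Real.exp_one_gt_d9
      linarith
    linarith
  obtain ⟨f1, f2⟩ := Pool.Agent.W788.BK.flat1 σ _ (Real.exp (-(17 / 8) * y)) _ (Real.exp_pos _)
    hhalf (by positivity) ξ hSM (fun x => 2 * d + σ * (-ξ x)) (2 * d) (fun x => by ring)
  have hKY : ∀ s : ℝ, 0 ≤ s →
      20 * (2 * (192 * (Pool.Agent.W788.BK.C1 * (17 / 8 * y)))) * s ≤
        20 * (2 * (192 * (Pool.Agent.W788.BK.C1 * (17 / 8)))) * Y * s := by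
    intro s hs
    have h1 : 20 * (2 * (192 * (Pool.Agent.W788.BK.C1 * (17 / 8 * y)))) =
        20 * (2 * (192 * (Pool.Agent.W788.BK.C1 * (17 / 8)))) * y := by ring
    rw [h1]
    gcongr
  rw [← hY]
  refine ⟨?_, ?_, ?_⟩
  · intro g B hB hgB m hm E s hs
    have hmf := hm.1
    have h1 := f1 g B hB hgB (m.map fun t : ℝ => 2 * d - t) inferInstance
      (fun z hz => reflect hm z hz) (2 * d - E) s (ht1.trans hs)
    rw [reflect_real] at h1
    refine h1.trans ?_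
    have hs0 : 0 ≤ s := (Real.exp_pos _).le.trans (ht1.trans hs)
    exact mul_le_mul_of_nonneg_right (hKY s hs0) (sq_nonneg _)
  · intro E u hu heq a ha
    have h1 := f2 (2 * d - E) u hu (fun x => by
      have h2 := heq x
      unfold H at h2
      unfold Pool.Agent.W788.LD.Spec.S
      push_cast at h2 ⊢
      linear_combination -h2) a ha
    refine h1.trans ?_
    have h3 : 0 ≤ ∑' x, ‖u x‖ ^ 2 := tsum_nonneg fun x => by positivity
    apply mul_le_mul_of_nonneg_right _ h3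
    have h4 := hKY (Real.exp (-(17 / 8) * y)) (Real.exp_pos _).le
    have h5 : 20 * (2 * (192 * (Pool.Agent.W788.BK.C1 * (17 / 8)))) * Y *
        Real.exp (-(17 / 8) * y) ≤ 20 * (2 * (192 * (Pool.Agent.W788.BK.C1 * (17 / 8)))) * Y *
        σ ^ (17 / 8 - ε) := by gcongr
    have h6 : 0 ≤ 2 * (192 * (Pool.Agent.W788.BK.C1 * (17 / 8 * y))) *
        Real.exp (-(17 / 8) * y) := by positivity
    linarith
  · intro a ha m m₀ hm hm₀ E s hs
    have hmf := hm.1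
    have hmf₀ := hm₀.1
    have h1 := Pool.Agent.X133.GA.det2 d Kd y
      (Real.exp (-(11 / 1000) * y) + Real.exp (-(11 / 1000) * y)) (by linarith) hKd1
      (by positivity) ?_ ?_ ?_ Gf (by rw [hKd]; exact hGf) σ ξ (fun x => -ξ x) (fun x => by ring)
      a (fun E ur ui h => hLL a ha E ur ui h)
      (fun σ' ξ' a' E ur ui h0 h => (hF σ' ξ' a' E ur ui h0 h).trans (by
        have := Real.exp_pos (-(11 / 1000) * y)
        linarith))
      (m.map fun t : ℝ => 2 * d - t) (m₀.map fun t : ℝ => 2 * d - t)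
      (fun z hz => reflect hm z hz) (fun z hz => by
        have h3 := reflect hm₀ z hz
        simpa using h3) (2 * d - E) s (ht2.trans hs)
    · rw [reflect_real, reflect_real] at h1
      refine h1.trans ?_
      have hs0 : 0 ≤ s := (Real.exp_pos _).le.trans (ht2.trans hs)
      exact mul_le_mul_of_nonneg_right ht3 hs0
    · linarith
    · linarith
    · exact n2

/-- The law of the Gaussian field is symmetric. -/
theorem law_neg (d : ℕ) : (Measure.infinitePi fun _ : Fin d → ℤ => gaussianReal 0 1).map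
    (fun ξ x => -ξ x) = Measure.infinitePi fun _ : Fin d → ℤ => gaussianReal 0 1 := by
  have h5 := (Measure.infinitePi_map_pi (μ := fun _ : Fin d → ℤ => gaussianReal 0 1)
    (f := fun _ => fun t : ℝ => -t) (fun _ => measurable_neg))
  have h6 : (gaussianReal 0 1).map (fun t : ℝ => -t) = gaussianReal 0 1 := by
    have := gaussianReal_map_neg (μ := 0) (v := 1)
    rwa [neg_zero] at this
  rw [h5]
  congr 1
  funext _
  exact h6

/-- all couplings -/
theorem main (d : ℕ) (hd : 3 ≤ d) (ε : ℝ) (hε : 0 < ε) :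
    ∃ c σ₀ K : ℝ, 0 < c ∧ 0 < σ₀ ∧ 0 < K ∧ ∀ σ : ℝ, 0 < |σ| → |σ| ≤ σ₀ →
      ∃ G : Set ((Fin d → ℤ) → ℝ), MeasurableSet G ∧
        1 - Real.exp (-|σ| ^ (-c)) ≤
          (Measure.infinitePi fun _ : Fin d → ℤ => gaussianReal 0 1).real G ∧
        ∀ ξ ∈ G, Good σ (Real.exp (|σ| ^ (-c))) (K * Real.log (1 / |σ|)) (|σ| ^ (17 / 8 - ε))
          (|σ| ^ (21 / 10 - ε)) (|σ| ^ c) ξ := by
  obtain ⟨c, σ₀, K, hc, hσ₀, hK, h⟩ := pos_main d hd ε hε
  refine ⟨c, σ₀, K, hc, hσ₀, hK, fun σ h1 h2 => ?_⟩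
  obtain ⟨G, hG, hP, hL⟩ := h |σ| h1 h2
  rcases lt_or_gt_of_ne (abs_pos.1 h1) with hs | hs
  · have hm : Measurable fun (ξ : (Fin d → ℤ) → ℝ) (x : Fin d → ℤ) => -ξ x :=
      measurable_pi_lambda _ fun x => (measurable_pi_apply x).neg
    refine ⟨(fun ξ x => -ξ x) ⁻¹' G, hm hG, ?_, fun ξ hξ => ?_⟩
    · have h3 : (Measure.infinitePi fun _ : Fin d → ℤ => gaussianReal 0 1).real
          ((fun ξ x => -ξ x) ⁻¹' G) =
          (Measure.infinitePi fun _ : Fin d → ℤ => gaussianReal 0 1).real G := by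
        conv_rhs => rw [← law_neg d]
        rw [map_measureReal_apply hm hG]
      rw [h3]
      exact hP
    · have h4 := hL _ hξ
      have hH : H |σ| (fun x => -ξ x) = H σ ξ := by
        funext u x
        unfold H
        rw [abs_of_neg hs]
        congr 2
        push_cast
        ring
      have hH0 : (H 0 (fun x => -ξ x) : ((Fin d → ℤ) → ℂ) → (Fin d → ℤ) → ℂ) = H 0 ξ := by
        funext u x
        unfold H
        simp
      unfold Good at h4 ⊢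
      rw [hH, hH0] at h4
      exact h4
  · rw [abs_of_pos hs] at hP hL ⊢
    exact ⟨G, hG, hP, hL⟩

end Pool.Agent.X133.GA.Main
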