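import Pool.Agent.X133.GA.Exist
import Pool.Agent.TH794.QE.FinA

/-! Moments of Green functions of unbounded potentials. -/

set_option autoImplicit false

open scoped BigOperators Topology
open MeasureTheory Filter

namespace Pool.Agent.X133.GA

open Pool.Agent.W788.LD.Spec (S)
open Pool.Agent.TH794.LL2
open Pool.Agent.TH794.FG
open Pool.Agent.TH794.QD (cj green)
open Pool.Agent.TH794.QE (QM mom_c)

variable {d : ℕ}

theorem gr_LS {V : (Fin d → ℤ) → ℝ} {a : Fin d → ℤ} {E t : ℝ} {u : (Fin d → ℤ) → ℂ}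
    (h : Gr d V a E t u) :
    LS d 1 V (fun x => (Pi.single (M := fun _ => ℝ) 0 1 : (Fin d → ℤ) → ℝ) (x - a)) (fun _ => 0)
      E t (fun x => (u x).re) (fun x => (u x).im) := by
  have hn : ∀ x, ‖u x‖ ^ 2 = (u x).re ^ 2 + (u x).im ^ 2 := by
    intro x
    rw [← Complex.normSq_eq_norm_sq, Complex.normSq_apply]
    ring
  have hs : ∀ x : Fin d → ℤ, (Pi.single (M := fun _ => ℝ) 0 1 : (Fin d → ℤ) → ℝ) (x - a) =
      if x = a then 1 else 0 := by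
    intro x
    by_cases hx : x = a
    · rw [if_pos hx, hx, sub_self, Pi.single_eq_same]
    · rw [if_neg hx, Pi.single_eq_of_ne (sub_ne_zero.2 hx)]
  refine ⟨?_, ?_, ?_, ?_⟩
  · refine Summable.of_nonneg_of_le (fun x => sq_nonneg _) (fun x => ?_) h.sq
    rw [hn x]
    nlinarith [sq_nonneg (u x).im]
  · refine Summable.of_nonneg_of_le (fun x => sq_nonneg _) (fun x => ?_) h.sq
    rw [hn x]
    nlinarith [sq_nonneg (u x).re]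
  · intro x
    have h3 := congrArg Complex.re (h.eq x)
    have h4 : (if x = a then (1 : ℂ) else 0).re = if x = a then 1 else 0 := by
      split_ifs <;> simp
    rw [h4] at h3
    rw [hs]
    simp [S] at h3
    linarith
  · intro x
    have h3 := congrArg Complex.im (h.eq x)
    have h4 : (if x = a then (1 : ℂ) else 0).im = 0 := by
      split_ifs <;> simp
    rw [h4] at h3
    simp [S] at h3
    linarith

/-- the moments -/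
theorem gr_mom {V : (Fin d → ℤ) → ℝ} {a : Fin d → ℤ} {E t : ℝ} {u : (Fin d → ℤ) → ℂ}
    (h : Gr d V a E t u) (ht : 0 < t) (ht1 : t ≤ 1) (j : Fin d) :
    (Summable fun x => ((x j : ℝ) - a j) ^ 2 * ‖u x‖ ^ 2) ∧
    QM a j u ≤ 4 * (t⁻¹) ^ 4 ∧
    (Summable fun x => (((x j : ℝ) - a j) ^ 2) ^ 2 * ‖u x‖ ^ 2) ∧
    ∑' x, (((x j : ℝ) - a j) ^ 2) ^ 2 * ‖u x‖ ^ 2 ≤ 176 * (t⁻¹) ^ 6 := by
  obtain ⟨h0, -, -, -, -, -, -, -⟩ := mom_c a (gr_LS h) ht ht1 j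
  obtain ⟨-, hLS, hT2, h4⟩ := green h0 ht ht1 j
  obtain ⟨s1, s2, hT4⟩ := h4 j
  have hn : ∀ x, ‖u x‖ ^ 2 = (u x).re ^ 2 + (u x).im ^ 2 := by
    intro x
    rw [← Complex.normSq_eq_norm_sq, Complex.normSq_apply]
    ring
  have hc : ∀ x : Fin d → ℤ, ((((Equiv.addRight a) x) j : ℤ) : ℝ) - a j = cj j x := by
    intro x
    simp only [Equiv.coe_addRight, Pi.add_apply]
    unfold cj
    push_cast
    rw [add_sub_cancel_right]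
  have g1 : ∀ x, (cj j x * (u (x + a)).re) ^ 2 + (cj j x * (u (x + a)).im) ^ 2 =
      (((((Equiv.addRight a) x) j : ℤ) : ℝ) - a j) ^ 2 * ‖u ((Equiv.addRight a) x)‖ ^ 2 := by
    intro x
    rw [hc, hn]
    simp only [Equiv.coe_addRight]
    ring
  have g2 : ∀ x, (cj j x * (cj j x * (u (x + a)).re)) ^ 2 +
      (cj j x * (cj j x * (u (x + a)).im)) ^ 2 =
      ((((((Equiv.addRight a) x) j : ℤ) : ℝ) - a j) ^ 2) ^ 2 * ‖u ((Equiv.addRight a) x)‖ ^ 2 := by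
    intro x
    rw [hc, hn]
    simp only [Equiv.coe_addRight]
    ring
  have a1 := hLS.sr.add hLS.si
  have a2 := s1.add s2
  have b1 : Summable fun x => ((x j : ℝ) - a j) ^ 2 * ‖u x‖ ^ 2 := by
    rw [← (Equiv.addRight a).summable_iff]
    exact a1.congr fun x => (g1 x)
  have b2 : Summable fun x => (((x j : ℝ) - a j) ^ 2) ^ 2 * ‖u x‖ ^ 2 := by
    rw [← (Equiv.addRight a).summable_iff]
    exact a2.congr fun x => (g2 x)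
  refine ⟨b1, ?_, b2, ?_⟩
  · unfold QM
    rw [← (Equiv.addRight a).tsum_eq fun x => ((x j : ℝ) - a j) ^ 2 * ‖u x‖ ^ 2]
    rw [← tsum_congr g1, hLS.sr.tsum_add hLS.si]
    refine hT2.trans (le_of_eq ?_)
    ring
  · rw [← (Equiv.addRight a).tsum_eq fun x => (((x j : ℝ) - a j) ^ 2) ^ 2 * ‖u x‖ ^ 2]
    rw [← tsum_congr g2, s1.tsum_add s2]
    exact hT4

theorem sq_diff (c r : ℝ) (u v : ℂ) (hr : 0 < r) :
    |c ^ 2 * ‖u‖ ^ 2 - c ^ 2 * ‖v‖ ^ 2| ≤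
      1 / (2 * r) * ‖u - v‖ ^ 2 + r * ((c ^ 2) ^ 2 * ‖u‖ ^ 2 + (c ^ 2) ^ 2 * ‖v‖ ^ 2) := by
  obtain ⟨A, hA⟩ : ∃ A, A = ‖u‖ := ⟨_, rfl⟩
  obtain ⟨B, hB⟩ : ∃ B, B = ‖v‖ := ⟨_, rfl⟩
  obtain ⟨D, hD⟩ : ∃ D, D = ‖u - v‖ := ⟨_, rfl⟩
  have hA0 : 0 ≤ A := by rw [hA]; exact norm_nonneg _
  have hB0 : 0 ≤ B := by rw [hB]; exact norm_nonneg _
  have hAB : |A - B| ≤ D := by
    rw [hA, hB, hD]
    exact abs_norm_sub_norm_le u v
  rw [← hA, ← hB, ← hD]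
  have e1 : c ^ 2 * A ^ 2 - c ^ 2 * B ^ 2 = (A - B) * (c ^ 2 * (A + B)) := by ring
  obtain ⟨X, hX⟩ : ∃ X, X = c ^ 2 * (A + B) := ⟨_, rfl⟩
  have hX0 : 0 ≤ X := by rw [hX]; positivity
  rw [e1, ← hX, abs_mul, abs_of_nonneg hX0]
  have h1 : |A - B| * X ≤ D * X := mul_le_mul_of_nonneg_right hAB hX0
  have h2 : D * X ≤ 1 / (2 * r) * D ^ 2 + r / 2 * X ^ 2 := by
    have h3 : 0 ≤ (D - r * X) ^ 2 / (2 * r) := by positivity
    have h4 : (D - r * X) ^ 2 / (2 * r) = 1 / (2 * r) * D ^ 2 - D * X + r / 2 * X ^ 2 := by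
      field_simp
      ring
    linarith
  have h5 : X ^ 2 ≤ 2 * ((c ^ 2) ^ 2 * A ^ 2 + (c ^ 2) ^ 2 * B ^ 2) := by
    rw [hX, mul_pow]
    nlinarith [mul_nonneg (sq_nonneg (c ^ 2)) (sq_nonneg (A - B))]
  have h6 : r / 2 * X ^ 2 ≤ r / 2 * (2 * ((c ^ 2) ^ 2 * A ^ 2 + (c ^ 2) ^ 2 * B ^ 2)) :=
    mul_le_mul_of_nonneg_left h5 (by positivity)
  linarith

/-- **transfer of the second moment** -/
theorem QM_transfer {V V' : (Fin d → ℤ) → ℝ} {a : Fin d → ℤ} {E t : ℝ} {u v : (Fin d → ℤ) → ℂ}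
    (hu : Gr d V a E t u) (hv : Gr d V' a E t v) (ht : 0 < t) (ht1 : t ≤ 1) (R : ℝ) (hR : 0 < R)
    (ha : ‖a‖ ≤ R) (hV : ∀ x : Fin d → ℤ, ‖x‖ < 2 * R → V x = V' x) (hd : 1 ≤ d) (j : Fin d) :
    |QM a j u - QM a j v| ≤ 1412 * d * (t⁻¹) ^ 8 / R := by
  have hd0 : (1 : ℝ) ≤ d := by exact_mod_cast hd
  have hz : ((E : ℂ) + (t : ℂ) * Complex.I).im = t := by simp
  obtain ⟨u1, u2, u3, u4⟩ := gr_mom hu ht ht1 j
  obtain ⟨v1, v2, v3, v4⟩ := gr_mom hv ht ht1 j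
  have h1 := transfer R V V' hR hV ((E : ℂ) + (t : ℂ) * Complex.I) (by rw [hz]; exact ht) u v _
    hu.sq hv.sq (sum_delta a).1 (fun y hy => by
      rw [if_neg]
      rintro rfl
      linarith) hu.eq hv.eq
  rw [hz, (sum_delta a).2, mul_one] at h1
  obtain ⟨Δ, hΔ⟩ : ∃ Δ, Δ = 4 * d / (R * t ^ 2) := ⟨_, rfl⟩
  have hΔ0 : 0 < Δ := by rw [hΔ]; positivity
  rw [← hΔ] at h1
  have h3 : Summable fun y => ‖u y - v y‖ ^ 2 := by
    have := summ_add u (fun y => -v y) hu.sq (by simpa only [norm_neg] using hv.sq)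
    simpa only [sub_eq_add_neg] using this
  have hs : Summable fun x => 1 / (2 * Δ) * ‖u x - v x‖ ^ 2 +
      Δ * ((((x j : ℝ) - a j) ^ 2) ^ 2 * ‖u x‖ ^ 2 + (((x j : ℝ) - a j) ^ 2) ^ 2 * ‖v x‖ ^ 2) :=
    (h3.mul_left _).add ((u3.add v3).mul_left _)
  have h4 : |QM a j u - QM a j v| ≤ ∑' x, (1 / (2 * Δ) * ‖u x - v x‖ ^ 2 +
      Δ * ((((x j : ℝ) - a j) ^ 2) ^ 2 * ‖u x‖ ^ 2 +
        (((x j : ℝ) - a j) ^ 2) ^ 2 * ‖v x‖ ^ 2)) := by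
    have h5 : ∀ x, ‖((x j : ℝ) - a j) ^ 2 * ‖u x‖ ^ 2 - ((x j : ℝ) - a j) ^ 2 * ‖v x‖ ^ 2‖ ≤
        1 / (2 * Δ) * ‖u x - v x‖ ^ 2 +
      Δ * ((((x j : ℝ) - a j) ^ 2) ^ 2 * ‖u x‖ ^ 2 +
        (((x j : ℝ) - a j) ^ 2) ^ 2 * ‖v x‖ ^ 2) := by
      intro x
      rw [Real.norm_eq_abs]
      exact sq_diff _ _ _ _ hΔ0
    unfold QM
    rw [← u1.tsum_sub v1, ← Real.norm_eq_abs]
    exact tsum_of_norm_bounded hs.hasSum h5
  refine h4.trans ?_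
  rw [(h3.mul_left _).tsum_add ((u3.add v3).mul_left _), tsum_mul_left, tsum_mul_left,
    u3.tsum_add v3]
  have ht6 : 1 ≤ (t⁻¹) ^ 6 := one_le_pow₀ ((one_le_inv₀ ht).2 ht1)
  calc 1 / (2 * Δ) * ∑' x, ‖u x - v x‖ ^ 2 + Δ * (∑' x, (((x j : ℝ) - a j) ^ 2) ^ 2 * ‖u x‖ ^ 2 +
        ∑' x, (((x j : ℝ) - a j) ^ 2) ^ 2 * ‖v x‖ ^ 2) ≤
        1 / (2 * Δ) * Δ ^ 2 + Δ * (176 * (t⁻¹) ^ 6 + 176 * (t⁻¹) ^ 6) := by
        gcongr
    _ = Δ * (1 / 2 + 352 * (t⁻¹) ^ 6) := by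
        field_simp
        ring
    _ ≤ Δ * (353 * (t⁻¹) ^ 6) := by
        gcongr
        linarith
    _ = 1412 * d * (t⁻¹) ^ 8 / R := by
        rw [hΔ]
        field_simp
        ring

end Pool.Agent.X133.GA
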