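import Pool.Agent.X133.GA.FinV
import Pool.Agent.X133.GA.WTr
import Pool.Agent.X133.GA.Gauss2
import Pool.Agent.X133.GA.Asm

/-! The second moment law for Gaussian potentials. -/

set_option autoImplicit false

open scoped BigOperators Topology
open MeasureTheory Filter

namespace Pool.Agent.X133.GA

open Pool.Agent.W788.BK
open Pool.Agent.W788.LD.Spec (S)
open Pool.Agent.W788.BK.Num
open Pool.Agent.TH794.QE (Rs QM QM_lip)

variable {d : ℕ}

/-- the two conventions for the Green function -/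
theorem gr_Rs {V : (Fin d → ℤ) → ℝ} {a : Fin d → ℤ} {E t : ℝ} {u : (Fin d → ℤ) → ℂ}
    (h : Gr d V a E t u) (ω : (Fin d → ℤ) → ℝ) (hω : ∀ x, ω x = -V x) :
    Rs d (fun x => 2 * d + ω x) a (2 * d - E) t (fun x => -(starRingEnd ℂ) (u x)) := by
  refine ⟨?_, fun x => ?_⟩
  · simpa using h.sq
  · change -S (fun y => -(starRingEnd ℂ) (u y)) x + ((2 * d + ω x : ℝ) : ℂ) *
      (-(starRingEnd ℂ) (u x)) - (((2 * d - E : ℝ) : ℂ) + (t : ℂ) * Complex.I) *
      (-(starRingEnd ℂ) (u x)) = if x = a then 1 else 0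
    have h1 := congrArg (starRingEnd ℂ) (h.eq x)
    have h2 : (starRingEnd ℂ) (if x = a then (1 : ℂ) else 0) = if x = a then 1 else 0 := by
      split_ifs <;> simp
    rw [h2] at h1
    rw [← h1, hω]
    have h3 : S (fun x => -(starRingEnd ℂ) (u x)) x = -(starRingEnd ℂ) (S u x) := by
      unfold S
      rw [map_sum, ← Finset.sum_neg_distrib]
      refine Finset.sum_congr rfl fun i _ => ?_
      rw [map_add]
      ring
    rw [h3, map_sub, map_add, map_mul, map_mul, map_add, map_mul, Complex.conj_ofReal,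
      Complex.conj_ofReal, Complex.conj_ofReal, Complex.conj_I]
    push_cast
    ring

theorem QM_conj (a : Fin d → ℤ) (j : Fin d) (u : (Fin d → ℤ) → ℂ) :
    QM a j (fun x => -(starRingEnd ℂ) (u x)) = QM a j u := by
  unfold QM
  refine tsum_congr fun x => ?_
  rw [norm_neg, Complex.norm_conj]

/-- the combination of the errors -/
theorem comb (P : ℝ → ℝ) (hP : ∀ u u' : ℝ, 0 < u → 0 < u' → |P u - P u'| ≤ |u - u'| / u')
    (x e0 e1 e2 e3 e4 σ2 s2 η η' τ q q' qu : ℝ)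
    (hσ : 0 < σ2) (hσ1 : σ2 ≤ 1) (hx : 0 ≤ x) (hx2 : x ≤ 1 / 2) (hs : s2 ≤ σ2)
    (hs' : (1 - x) * σ2 ≤ s2) (hτ : 0 < τ) (hτη : τ ≤ η) (hη : η ≤ σ2) (hτs : τ ≤ s2)
    (hη' : η' = min η s2)
    (h1 : |qu - q| ≤ e1) (h2 : |η ^ 2 * q - η' ^ 2 * q'| ≤ e2) (hq' : 0 ≤ q')
    (h3 : η' ^ 2 * q' ≤ e3) (h4 : |η' ^ 2 * s2 * q' - 2 * P (η' / s2)| ≤ e4)
    (he : e1 + e2 + x * e3 + e4 + 4 * x ≤ e0) :
    |η ^ 2 * σ2 * qu - 2 * P (η / σ2)| ≤ e0 := by
  have hs0 : 0 < s2 := hτ.trans_le hτs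
  have hη0 : 0 < η := hτ.trans_le hτη
  have hη'0 : 0 < η' := by rw [hη']; exact lt_min hη0 hs0
  have hη1 : η ≤ 1 := hη.trans hσ1
  have t1 : |η ^ 2 * σ2 * (qu - q)| ≤ e1 := by
    rw [abs_mul, abs_of_pos (by positivity)]
    have : η ^ 2 * σ2 ≤ 1 := mul_le_one₀ (pow_le_one₀ hη0.le hη1) hσ.le hσ1
    exact (mul_le_of_le_one_left (abs_nonneg _) this).trans h1
  have t2 : |σ2 * (η ^ 2 * q - η' ^ 2 * q')| ≤ e2 := by
    rw [abs_mul, abs_of_pos hσ]
    exact (mul_le_of_le_one_left (abs_nonneg _) hσ1).trans h2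
  have hx3 : 0 ≤ η' ^ 2 * q' := by positivity
  have t3 : |(σ2 - s2) * (η' ^ 2 * q')| ≤ x * e3 := by
    rw [abs_mul, abs_of_nonneg (by linarith : 0 ≤ σ2 - s2), abs_of_nonneg hx3]
    have h5 : σ2 - s2 ≤ x := by
      have : x * σ2 ≤ x * 1 := mul_le_mul_of_nonneg_left hσ1 hx
      linarith
    exact mul_le_mul h5 h3 hx3 hx
  have t5 : |P (η' / s2) - P (η / σ2)| ≤ 2 * x := by
    have hu : 0 < η / σ2 := by positivity
    refine (hP (η' / s2) (η / σ2) (by positivity) hu).trans ?_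
    rw [div_le_iff₀ hu]
    rcases le_total η s2 with h | h
    · rw [hη', min_eq_left h]
      have h6 : η / s2 - η / σ2 = η * (σ2 - s2) / (s2 * σ2) := by
        field_simp
      have h7 : 0 ≤ η / s2 - η / σ2 := by
        rw [h6]
        have : 0 ≤ σ2 - s2 := by linarith
        positivity
      rw [abs_of_nonneg h7, h6, div_le_iff₀ (by positivity)]
      have h8 : σ2 - s2 ≤ 2 * x * s2 := by nlinarith
      calc η * (σ2 - s2) ≤ η * (2 * x * s2) := by gcongr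
        _ = 2 * x * (η / σ2) * (s2 * σ2) := by
          field_simp
    · rw [hη', min_eq_right h, div_self hs0.ne']
      have h6 : η / σ2 ≤ 1 := (div_le_one hσ).2 hη
      rw [abs_of_nonneg (by linarith)]
      have h7 : 1 - x ≤ η / σ2 := by
        rw [le_div_iff₀ hσ]
        linarith
      nlinarith
  have e : η ^ 2 * σ2 * qu - 2 * P (η / σ2) = η ^ 2 * σ2 * (qu - q) +
      σ2 * (η ^ 2 * q - η' ^ 2 * q') + (σ2 - s2) * (η' ^ 2 * q') +
      (η' ^ 2 * s2 * q' - 2 * P (η' / s2)) + 2 * (P (η' / s2) - P (η / σ2)) := by ring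
  rw [e]
  have t6 : |2 * (P (η' / s2) - P (η / σ2))| ≤ 4 * x := by
    rw [abs_mul, abs_two]
    linarith
  refine (abs_add_le _ _).trans ((add_le_add ((abs_add_le _ _).trans (add_le_add
    ((abs_add_le _ _).trans (add_le_add ((abs_add_le _ _).trans (add_le_add t1 t2)) t3)) h4))
    t6).trans he)

open Pool.Agent.TH794.QE (Pg Pg_u)
open Pool.Agent.TH794.QD (GF F0 F1 GF_im)

/-- the profile -/
noncomputable def PP (d : ℕ) (u E : ℝ) : ℝ :=
  Pg (fun E => GF (F0 d) (E : ℂ)) (fun E => GF (F1 d) (E : ℂ)) u E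

theorem PP_lip (hO : S_OSC) (hd : 3 ≤ d) (u u' E : ℝ) (hu : 0 < u) (hu' : 0 < u') :
    |PP d u E - PP d u' E| ≤ |u - u'| / u' := by
  have h1 := GF_im hO d hd (E : ℂ) (by simp)
  exact Pg_u _ _ u u' E hu hu' h1.1 h1.2

/-- **the event** -/
theorem gSM (hES : S_ES) (hTH : S_THIRD) (hFL : S_FLUCT) (hIN : S_INV)
    (hSU : S_SUP) (hQB : S_QB) (hLO : S_LOW) (hAD : S_ADM) (hFA : S_FAC) (hO : S_OSC)
    (d : ℕ) (hd : 3 ≤ d) : ∃ Y0 : ℝ, 1 ≤ Y0 ∧ ∀ Y : ℝ, Y0 ≤ Y →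
    ∃ G : Set ((Fin d → ℤ) → ℝ), MeasurableSet G ∧
      1 - Real.exp (-Real.exp (1 / 1000 * Y)) ≤
        (Measure.infinitePi fun _ : Fin d → ℤ => gam).real G ∧
      ∀ ξ ∈ G, ∀ a : Fin d → ℤ, ‖a‖ ≤ Real.exp (Real.exp (1 / 1000 * Y)) →
      ∀ E η : ℝ, |E| ≤ 3 * d → Real.exp (-(101 / 50) * Y) ≤ η → η ≤ Real.exp (-2 * Y) →
      ∀ u, Gr d (fun x => Real.exp (-Y) * ξ x) a E η u → ∀ j,
        |η ^ 2 * Real.exp (-2 * Y) * QM a j u - 2 * PP d (η / Real.exp (-2 * Y)) E| ≤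
          Real.exp (-(1 / 301) * Y) := by
  have hd0 : (0 : ℝ) < d := by
    have : 0 < d := by omega
    exact_mod_cast this
  obtain ⟨c0, hc0, hF⟩ := finEv d (fun E => |E| ≤ 3 * d) (PP d)
    (engV hES hTH hFL hIN hSU hQB hLO hAD hFA hO d hd)
    (fun u u' E hu hu' _ => PP_lip hO hd u u' E hu hu')
  obtain ⟨C, hC, hvar⟩ := nu_var
  obtain ⟨Y1, hY1⟩ := Filter.eventually_atTop.1
    ((eventually_ge_atTop (1 : ℝ)).and
    ((eventually_ge_atTop (2 * |Real.log c0|)).and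
    ((ev_lin (Real.log (14120 * d)) (404 / 25 + 1 / 301) (1 / 1000) (by norm_num)).and
    ((ev_lin (2 * Real.log (440 * C)) (2 * (303 / 25 + 1 / 301)) (1 / 500) (by norm_num)).and
    ((ev2 2 (-(499 / 150000)) (-(1 / 301)) 0 (by norm_num)).and
    ((ev2 2 (-(101 / 50)) (-2) 0 (by norm_num)).and
    ((ev_exp (Real.log 3) 1 (1 / 1000) (499 / 50500) (by norm_num) (by norm_num)).and
    (ev_exp (Real.log 12 + d * Real.log 6) (d + 1) (1 / 1000) (1 / 500) (by norm_num)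
      (by norm_num)))))))))
  refine ⟨max Y1 1, le_max_right _ _, fun Y hY => ?_⟩
  obtain ⟨n0, n1, n2, n3, n4, n5, n6, n7⟩ := hY1 Y ((le_max_left _ _).trans hY)
  simp only [pow_zero, mul_one] at n4 n5
  obtain ⟨B, hB⟩ : ∃ B, B = Real.exp (1 / 500 * Y) := ⟨_, rfl⟩
  have hB0 : 0 < B := by rw [hB]; positivity
  obtain ⟨R, hR⟩ : ∃ R, R = Real.exp (Real.exp (1 / 1000 * Y)) := ⟨_, rfl⟩
  have hR0 : 0 < R := by rw [hR]; positivity
  have hR1 : 1 ≤ R := by rw [hR]; exact Real.one_le_exp (by positivity)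
  obtain ⟨c, hc⟩ : ∃ c, c = Real.exp (-(499 / 500) * Y) := ⟨_, rfl⟩
  have hcp : 0 < c := by rw [hc]; positivity
  have hcB : c = Real.exp (-Y) * B := by
    rw [hc, hB, ← Real.exp_add]
    congr 1
    ring
  have hcc0 : c ≤ c0 := by
    have h1 : -|Real.log c0| ≤ Real.log c0 := neg_abs_le _
    rw [hc, ← Real.exp_log hc0]
    apply Real.exp_le_exp.2
    linarith
  have hcpow : ∀ p : ℝ, c ^ p = Real.exp (-(499 / 500) * p * Y) := by
    intro p
    rw [Real.rpow_def_of_pos hcp, hc, Real.log_exp]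
    congr 1
    ring
  obtain ⟨x, hx⟩ : ∃ x, x = C * Real.exp (-B / 2) := ⟨_, rfl⟩
  have hx0 : 0 < x := by rw [hx]; positivity
  obtain ⟨σ2, hσ2⟩ : ∃ σ2, σ2 = Real.exp (-2 * Y) := ⟨_, rfl⟩
  have hσ20 : 0 < σ2 := by rw [hσ2]; positivity
  have hσ21 : σ2 ≤ 1 := by rw [hσ2]; exact Real.exp_le_one_iff.2 (by linarith)
  obtain ⟨τ, hτ⟩ : ∃ τ, τ = Real.exp (-(101 / 50) * Y) := ⟨_, rfl⟩
  have hτ0 : 0 < τ := by rw [hτ]; positivity
  have hτinv : τ⁻¹ = Real.exp (101 / 50 * Y) := by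
    rw [hτ, ← Real.exp_neg]
    congr 1
    ring
  have hτp : ∀ n : ℕ, (τ⁻¹) ^ n = Real.exp (n * (101 / 50 * Y)) := by
    intro n
    rw [hτinv, ← Real.exp_nat_mul]
  obtain ⟨e0, he0⟩ : ∃ e0, e0 = Real.exp (-(1 / 301) * Y) := ⟨_, rfl⟩
  have he00 : 0 < e0 := by rw [he0]; positivity
  have he01 : e0 ≤ 1 := by rw [he0]; exact Real.exp_le_one_iff.2 (by linarith)
  -- the numerical facts
  have m1 : 1412 * d * (τ⁻¹) ^ 8 / R ≤ 1 / 10 * e0 := by
    rw [div_le_iff₀ hR0, hτp, hR, he0]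
    have e1 : (14120 : ℝ) * d = Real.exp (Real.log (14120 * d)) := by
      rw [Real.exp_log (by positivity)]
    have e2 : Real.exp (Real.log (14120 * d)) * Real.exp (404 / 25 * Y) ≤
        Real.exp (-(1 / 301) * Y) * Real.exp (Real.exp (1 / 1000 * Y)) := by
      rw [← Real.exp_add, ← Real.exp_add]
      apply Real.exp_le_exp.2
      linarith
    rw [← e1] at e2
    have e3 : ((8 : ℕ) : ℝ) * (101 / 50 * Y) = 404 / 25 * Y := by
      push_cast
      ring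
    rw [e3]
    linarith
  have m2 : 44 * x * (τ⁻¹) ^ 6 ≤ 1 / 10 * e0 := by
    rw [hτp, hx, he0]
    have e1 : (440 : ℝ) * C = Real.exp (Real.log (440 * C)) := by
      rw [Real.exp_log (by positivity)]
    have e2 : Real.exp (Real.log (440 * C)) * Real.exp (-B / 2) * Real.exp (303 / 25 * Y) ≤
        Real.exp (-(1 / 301) * Y) := by
      rw [← Real.exp_add, ← Real.exp_add]
      apply Real.exp_le_exp.2
      rw [hB]
      linarith
    rw [← e1] at e2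
    have e3 : ((6 : ℕ) : ℝ) * (101 / 50 * Y) = 303 / 25 * Y := by
      push_cast
      ring
    rw [e3]
    linarith
  have hτ1 : 1 ≤ τ⁻¹ := by
    rw [hτinv]
    exact Real.one_le_exp (by linarith)
  have m3 : x ≤ 1 / 440 * e0 := by
    have h1 : 1 ≤ (τ⁻¹) ^ 6 := one_le_pow₀ hτ1
    have h2 : 44 * x * 1 ≤ 44 * x * (τ⁻¹) ^ 6 := mul_le_mul_of_nonneg_left h1 (by positivity)
    linarith
  have m4 : x * (4 * (τ⁻¹) ^ 2) ≤ 4 / 440 * e0 := by
    have h1 : (τ⁻¹) ^ 2 ≤ (τ⁻¹) ^ 6 := pow_le_pow_right₀ hτ1 (by norm_num)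
    have h2 : 44 * x * (τ⁻¹) ^ 2 ≤ 44 * x * (τ⁻¹) ^ 6 :=
      mul_le_mul_of_nonneg_left h1 (by positivity)
    linarith
  have m5 : c ^ (1 / 300 : ℝ) ≤ 1 / 2 * e0 := by
    rw [hcpow, he0]
    have e1 : -(499 / 500) * (1 / 300) * Y = -(499 / 150000) * Y := by ring
    rw [e1]
    linarith
  have hx2 : x ≤ 1 / 2 := by linarith
  -- the law
  have hmm : Measurable fun s : ℝ => -c * cl B s := (cl_meas B).const_mul _
  obtain ⟨μ, hμ⟩ : ∃ μ, μ = gam.map fun s => -c * cl B s := ⟨_, rfl⟩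
  have hμp : IsProbabilityMeasure μ := by
    rw [hμ]
    exact Measure.isProbabilityMeasure_map hmm.aemeasurable
  have hμb : ∀ᵐ s ∂μ, |s| ≤ c := by
    rw [hμ, ae_map_iff hmm.aemeasurable (measurableSet_le (by fun_prop) (by fun_prop))]
    refine Filter.Eventually.of_forall fun s => ?_
    rw [abs_mul, abs_neg, abs_of_pos hcp]
    exact mul_le_of_le_one_right hcp.le (cl_abs hB0 s)
  have hμ0 : ∫ s, s ∂μ = 0 := by
    have h1 := nu_mean hB0
    unfold nu at h1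
    rw [integral_map (cl_meas B).aemeasurable (by fun_prop)] at h1
    rw [hμ, integral_map hmm.aemeasurable (by fun_prop), integral_const_mul, h1, mul_zero]
  obtain ⟨s2, hs2⟩ : ∃ s2, ∫ s, s ^ 2 ∂μ = s2 := ⟨_, rfl⟩
  have hs2v : s2 = σ2 * (B ^ 2 * ∫ s, s ^ 2 ∂(nu B)) := by
    unfold nu
    rw [← hs2, hμ, integral_map hmm.aemeasurable (by fun_prop),
      integral_map (cl_meas B).aemeasurable (by fun_prop)]
    simp only [mul_pow, neg_sq]
    rw [integral_const_mul, hcB, mul_pow, ← mul_assoc]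
    congr 2
    rw [hσ2, ← Real.exp_nat_mul]
    congr 1
    push_cast
    ring
  obtain ⟨hv1, hv2⟩ := hvar B hB0
  rw [← hx] at hv2
  have hs2a : s2 ≤ σ2 := by
    rw [hs2v]
    exact mul_le_of_le_one_right hσ20.le hv1
  have hs2b : (1 - x) * σ2 ≤ s2 := by
    rw [hs2v, mul_comm]
    exact mul_le_mul_of_nonneg_left hv2 hσ20.le
  have hτs : τ ≤ s2 := by
    have h1 : 2 * τ ≤ σ2 := by
      rw [hτ, hσ2]
      exact n5
    nlinarith
  have hcτ : c ^ (81 / 40 : ℝ) ≤ τ := by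
    rw [hcpow, hτ]
    apply Real.exp_le_exp.2
    linarith
  obtain ⟨G1, hG1, hP1, hL1⟩ := hF c hcp hcc0 μ hμp hμb hμ0 s2 hs2 (hcτ.trans hτs)
  have hTm : Measurable (fun (ω : (Fin d → ℤ) → ℝ) x => -c * cl B (ω x)) :=
    measurable_pi_lambda _ fun x => hmm.comp (measurable_pi_apply x)
  have hlaw : (Measure.infinitePi fun _ : Fin d → ℤ => gam).map (fun ω x => -c * cl B (ω x)) =
      Measure.infinitePi fun _ : Fin d → ℤ => μ := by
    rw [hμ]
    exact Measure.infinitePi_map_pi (μ := fun _ : Fin d → ℤ => gam)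
      (f := fun _ (s : ℝ) => -c * cl B s) (fun _ => hmm)
  have hP1' : 1 - Real.exp (-c ^ (-(1 / 101) : ℝ)) ≤
      (Measure.infinitePi fun _ : Fin d → ℤ => gam).real
        ((fun (ω : (Fin d → ℤ) → ℝ) x => -c * cl B (ω x)) ⁻¹' G1) := by
    rw [← map_measureReal_apply hTm hG1, hlaw]
    exact hP1
  have hbig := Big_prob d B (2 * R) (4 * Real.exp (-B)) (by linarith) (tail B)
  have hq0 : c ^ (-(1 / 101) : ℝ) = Real.exp (499 / 50500 * Y) := by
    rw [hcpow]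
    congr 1
    ring
  have hq1 : Real.exp (-c ^ (-(1 / 101) : ℝ)) ≤ 1 / 3 * Real.exp (-Real.exp (1 / 1000 * Y)) := by
    have e1 : (1 : ℝ) / 3 = Real.exp (-Real.log 3) := by
      rw [Real.exp_neg, Real.exp_log (by norm_num), one_div]
    rw [e1, ← Real.exp_add, hq0]
    apply Real.exp_le_exp.2
    linarith
  have hq2 : (3 * (2 * R)) ^ d * (4 * Real.exp (-B)) ≤
      1 / 3 * Real.exp (-Real.exp (1 / 1000 * Y)) := by
    have e1 : (3 * (2 * R)) = Real.exp (Real.log 6 + Real.exp (1 / 1000 * Y)) := by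
      rw [Real.exp_add, Real.exp_log (by norm_num), hR]
      ring
    have e2 : (3 * (2 * R)) ^ d = Real.exp (d * (Real.log 6 + Real.exp (1 / 1000 * Y))) := by
      rw [e1, ← Real.exp_nat_mul]
    have e3 : Real.log 12 = Real.log 3 + Real.log 4 := by
      rw [← Real.log_mul (by norm_num) (by norm_num)]
      norm_num
    have e4 : (4 : ℝ) = Real.exp (Real.log 4) := by rw [Real.exp_log (by norm_num)]
    have e5 : (1 : ℝ) / 3 = Real.exp (-Real.log 3) := by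
      rw [Real.exp_neg, Real.exp_log (by norm_num), one_div]
    rw [e2, e5]
    conv_lhs => rw [e4]
    rw [← Real.exp_add, ← Real.exp_add, ← Real.exp_add]
    apply Real.exp_le_exp.2
    rw [hB]
    linarith
  refine ⟨((fun (ω : (Fin d → ℤ) → ℝ) x => -c * cl B (ω x)) ⁻¹' G1) ∩ Set.univ ∩
    (Big d B (2 * R))ᶜ, ((hTm hG1).inter MeasurableSet.univ).inter (Big_meas d B (2 * R)).compl,
    ?_, ?_⟩
  · have h3 := prob_inter (Measure.infinitePi fun _ : Fin d → ℤ => gam) _ _ _ _ 0 _ (hTm hG1)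
      MeasurableSet.univ (Big_meas d B (2 * R)) hP1' (by rw [probReal_univ]; norm_num) hbig
    have h4 := Real.exp_pos (-Real.exp (1 / 1000 * Y))
    linarith
  · rintro ξ ⟨⟨hξ1, -⟩, hξ3⟩ a ha E η hE hη1 hη2 u hu j
    obtain ⟨hωb, hL⟩ := hL1 _ hξ1
    rw [← hR] at ha
    rw [← hτ] at hη1
    rw [← hσ2] at hη2 ⊢
    rw [← he0]
    have hη0 : 0 < η := hτ0.trans_le hη1
    have hη11 : η ≤ 1 := hη2.trans hσ21
    obtain ⟨V', hV'⟩ : ∃ V' : (Fin d → ℤ) → ℝ, V' = fun x => c * cl B (ξ x) := ⟨_, rfl⟩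
    have hVV : ∀ x : Fin d → ℤ, ‖x‖ < 2 * R → (fun x => Real.exp (-Y) * ξ x) x = V' x := by
      intro x hx
      have hle : |ξ x| ≤ B := by
        by_contra hcon
        exact hξ3 ⟨x, hx, not_le.1 hcon⟩
      have h4 := cl_eq hB0 hle
      rw [hV', hcB]
      simp only
      rw [mul_assoc, h4]
    have hV'b : ∀ x, |V' x| ≤ c := by
      intro x
      rw [hV', abs_mul, abs_of_pos hcp]
      exact mul_le_of_le_one_right hcp.le (cl_abs hB0 _)
    obtain ⟨η', hη'⟩ : ∃ η', η' = min η s2 := ⟨_, rfl⟩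
    have hη'τ : τ ≤ η' := by rw [hη']; exact le_min hη1 hτs
    have hη's : η' ≤ s2 := by rw [hη']; exact min_le_right _ _
    have hη'0 : 0 < η' := hτ0.trans_le hη'τ
    have hη'1 : η' ≤ 1 := hη's.trans (hs2a.trans hσ21)
    obtain ⟨v, hv⟩ := gr_bdd V' c hV'b a E η hη0
    obtain ⟨v', hv'⟩ := gr_bdd V' c hV'b a E η' hη'0
    have hωV : ∀ x, (fun x => -c * cl B (ξ x)) x = -V' x := by
      intro x
      rw [hV']
      ring
    have hRv := gr_Rs hv _ hωV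
    have hRv' := gr_Rs hv' _ hωV
    have h1 := QM_transfer hu hv hη0 hη11 R hR0 ha hVV (by omega) j
    have hηη : |η - η'| ≤ x := by
      rcases le_total η s2 with h | h
      · rw [hη', min_eq_left h, sub_self, abs_zero]
        exact hx0.le
      · rw [hη', min_eq_right h, abs_of_nonneg (by linarith)]
        have : x * σ2 ≤ x * 1 := mul_le_mul_of_nonneg_left hσ21 hx0.le
        linarith
    have h2 := QM_lip hRv hRv' τ x hτ0 hη1 hη11 hη'τ hη'1 hx0 (by linarith) hηη j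
    rw [QM_conj, QM_conj] at h2
    obtain ⟨-, h3, -, -⟩ := gr_mom hv' hη'0 hη'1 j
    have ha2 : ‖a‖ ≤ Real.exp (c ^ (-(1 / 101) : ℝ)) := by
      refine ha.trans ?_
      rw [hR, hq0]
      apply Real.exp_le_exp.2
      apply Real.exp_le_exp.2
      linarith
    obtain ⟨-, h4⟩ := hL a ha2 (2 * d - E) (by
      have e1 : 2 * (d : ℝ) - (2 * d - E) = E := by ring
      rw [e1]
      exact hE) η' (hcτ.trans hη'τ) hη's _ hRv' j
    have e1 : 2 * (d : ℝ) - (2 * d - E) = E := by ring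
    rw [QM_conj, e1] at h4
    have hq'0 : 0 ≤ QM a j v' := tsum_nonneg fun _ => mul_nonneg (sq_nonneg _) (sq_nonneg _)
    have hinv : η'⁻¹ ≤ τ⁻¹ := inv_anti₀ hτ0 hη'τ
    have hinv2 : η⁻¹ ≤ τ⁻¹ := inv_anti₀ hτ0 hη1
    have h5 : η' ^ 2 * QM a j v' ≤ 4 * (τ⁻¹) ^ 2 := by
      calc η' ^ 2 * QM a j v' ≤ η' ^ 2 * (4 * (η'⁻¹) ^ 4) := by gcongr
        _ = 4 * (η'⁻¹) ^ 2 := by
          field_simp
        _ ≤ 4 * (τ⁻¹) ^ 2 := by gcongr
    have h6 : |QM a j u - QM a j v| ≤ 1412 * d * (τ⁻¹) ^ 8 / R := by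
      refine h1.trans ?_
      gcongr
    exact comb (fun w => PP d w E) (fun w w' hw hw' => PP_lip hO hd w w' E hw hw') x e0
      (1412 * d * (τ⁻¹) ^ 8 / R) (44 * x * (τ⁻¹) ^ 6) (4 * (τ⁻¹) ^ 2) (c ^ (1 / 300 : ℝ)) σ2 s2 η η'
      τ (QM a j v) (QM a j v') (QM a j u) hσ20 hσ21 hx0.le hx2 hs2a hs2b hτ0 hη1 hη2 hτs hη' h6 h2
      hq'0 h5 h4 (by linarith)

end Pool.Agent.X133.GA
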